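import Pool.Agent.MP_8be872_ag.H71.DualC

/-! The duality transformation. -/

namespace Pool.Agent.MP_8be872_ag.H71

open Finset Function Pool.Agent.MP_8be872_ag.H38

variable {F ι : Type} [Field F] [DecidableEq ι]

theorem coeff_shift (q s : F) (I J : Finset ι) (X Z : ι → F) {a0 c0 : ι} (ha : a0 ∈ I)
    (hc : c0 ∈ J) (j : ℕ) (h : X a0 * Z c0 * q ^ j = 1) (κ : F) (k : ℕ) :
    (if j ≤ k then ∑ β ∈ piAntidiag I (k - j), term q s I J X Z (β + Pi.single a0 j) * κ else 0) =
      PowerSeries.coeff k (PowerSeries.C (cst q s I J X Z a0 c0 j * κ) * (PowerSeries.X ^ j *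
        Aser q s I J (update X a0 (X a0 * q ^ j)) (update Z c0 (Z c0 * q ^ j)))) := by
  rw [PowerSeries.coeff_C_mul, PowerSeries.coeff_X_pow_mul']
  split_ifs with hj
  · rw [Aser, PowerSeries.coeff_mk, mul_sum]
    refine sum_congr rfl fun β _ => ?_
    rw [term_shift q s I J X Z ha hc j h]
    ring
  · rw [mul_zero]

/-- the correction terms -/
noncomputable def corr (q s : F) (I J : Finset ι) (X Z : ι → F) (c0 : ι) (t : F) (a : ι) (l : ℕ) :
    F :=
  cst q s I (insert c0 J) X (update Z c0 (X a * q ^ (l + 1))⁻¹) a c0 (l + 1) *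
    (t / (t - (X a * q ^ (l + 1))⁻¹))

theorem inv_mul_pow {x q : F} (hq : q ≠ 0) (j : ℕ) : (x * q ^ j)⁻¹ * q ^ j = x⁻¹ := by
  rw [mul_inv, mul_assoc, inv_mul_cancel₀ (pow_ne_zero _ hq), mul_one]

theorem serA {q : F} (s : F) (hq : q ≠ 0) {I J : Finset ι} {c0 : ι} (hc : c0 ∉ J)
    {X Z : ι → F} (g : Gen q I J X Z) {t : F}
    (ht : t ≠ 0) (htx : ∀ a ∈ I, ∀ l : ℕ, X a * t * q ^ (l + 1) ≠ 1) (N : ℕ) :
    PowerSeries.X ^ (N + 1) ∣ Aser q s I (insert c0 J) X (update Z c0 t) - (Aser q s I J X Z -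
      PowerSeries.C (1 - s) * ∑ a ∈ I, ∑ l ∈ range N,
        PowerSeries.C (corr q s I J X Z c0 t a l) * (PowerSeries.X ^ (l + 1) *
          Aser q s I (insert c0 J) (update X a (X a * q ^ (l + 1))) (update Z c0 (X a)⁻¹))) := by
  rw [PowerSeries.X_pow_dvd_iff]
  intro k hk
  rw [map_sub, map_sub, sub_eq_zero, PowerSeries.coeff_C_mul, map_sum, Aser, Aser,
    PowerSeries.coeff_mk, PowerSeries.coeff_mk,
    sum_congr rfl fun γ _ => termA_pf s hq J hc Z g.nx g.sx ht htx γ, sum_sub_distrib, ← mul_sum,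
    sum_comm]
  congr 2
  refine sum_congr rfl fun a ha => ?_
  rw [map_sum, sum_lt I ha _ (Nat.lt_succ_iff.mp hk)]
  refine sum_congr rfl fun l _ => ?_
  rw [coeff_shift q s I (insert c0 J) X _ ha (mem_insert_self c0 J) (l + 1)]
  · rw [update_idem, update_self, inv_mul_pow hq, corr]
  · rw [update_self, mul_right_comm]
    exact mul_inv_cancel₀ (mul_ne_zero (g.nx a ha) (pow_ne_zero _ hq))

theorem serB {q : F} (s : F) (hq : q ≠ 0) {I J : Finset ι} {c0 : ι} (hc : c0 ∉ J)
    {X Z : ι → F} (g : Gen q I J X Z) {t : F} (ht : t ≠ 0)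
    (htz : ∀ c ∈ J, ∀ m n : ℕ, t * q ^ m ≠ Z c * q ^ n)
    (htx : ∀ a ∈ I, ∀ l : ℕ, X a * t * q ^ (l + 1) ≠ 1) (N : ℕ) :
    PowerSeries.X ^ (N + 1) ∣ Aser q s (insert c0 J) I (update Z c0 t) X -
      (Aser q s J I Z X * fser q s (s ^ J.card) -
      PowerSeries.C (1 - s) * ∑ a ∈ I, ∑ l ∈ range N,
        PowerSeries.C (corr q s I J X Z c0 t a l) * (PowerSeries.X ^ (l + 1) *
          Aser q s (insert c0 J) I (update Z c0 (X a)⁻¹) (update X a (X a * q ^ (l + 1))))) := by
  rw [PowerSeries.X_pow_dvd_iff]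
  intro k hk
  rw [map_sub, map_sub, sub_eq_zero, PowerSeries.coeff_C_mul, map_sum, Aser,
    PowerSeries.coeff_mk, sum_congr rfl fun γ _ => termB_pf s hq hc g.symm ht htz htx γ,
    sum_sub_distrib, sum_add_distrib, sum_sub_distrib, ← mul_sum, ← mul_sum, ← mul_sum]
  have e0 : ∑ γ ∈ piAntidiag (insert c0 J) k, term q s J I Z X γ *
      ((s ^ J.card) ^ γ c0 * ∏ l ∈ range (γ c0), ee s (q ^ (l + 1))) =
      PowerSeries.coeff k (Aser q s J I Z X * fser q s (s ^ J.card)) := by
    rw [sum_insert_anti J hc (term q s J I Z X)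
      (fun n => (s ^ J.card) ^ n * ∏ l ∈ range n, ee s (q ^ (l + 1)))
      (fun γ γ' h => term_congr q s J I (fun _ _ => rfl) (fun _ _ => rfl) h),
      PowerSeries.coeff_mul]
    refine sum_congr rfl fun x _ => ?_
    rw [Aser, fser, PowerSeries.coeff_mk, PowerSeries.coeff_mk]
  have e1 : ∑ γ ∈ piAntidiag (insert c0 J) k, ∑ c ∈ J, ∑ l ∈ range (γ c),
        term q s (insert c0 J) I (update Z c0 (Z c * q ^ l / q ^ γ c0)) X γ *
          (t / (t - Z c * q ^ l / q ^ γ c0)) =
      ∑ γ ∈ piAntidiag (insert c0 J) k, ∑ c ∈ J, ∑ l ∈ range (γ c0),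
        term q s (insert c0 J) I (update Z c0 (Z c * q ^ γ c / q ^ l)) X γ *
          (t / (t - Z c * q ^ γ c / q ^ l)) := by
    rw [sum_comm, sum_comm (s := piAntidiag (insert c0 J) k)]
    refine sum_congr rfl fun c hcJ => ?_
    have hne : c ≠ c0 := ne_of_mem_of_not_mem hcJ hc
    rw [sum_lt' (insert c0 J) (mem_insert_of_mem hcJ), sum_lt' (insert c0 J) (mem_insert_self c0 J)]
    refine sum_congr rfl fun l _ => ?_
    congr 1
    refine sum_congr rfl fun β _ => ?_
    simp only [Pi.add_apply, Pi.single_eq_of_ne hne, Pi.single_eq_of_ne hne.symm, add_zero]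
    rw [term_swap q s (insert c0 J) I (mem_insert_of_mem hcJ) (mem_insert_self c0 J)]
    rw [update_self, update_of_ne hne, div_mul_cancel₀ _ (pow_ne_zero _ hq)]
  rw [e0, e1, sub_add_cancel, sum_comm]
  congr 2
  refine sum_congr rfl fun a ha => ?_
  rw [map_sum, sum_lt (insert c0 J) (mem_insert_self c0 J) _ (Nat.lt_succ_iff.mp hk)]
  refine sum_congr rfl fun l _ => ?_
  rw [coeff_shift q s (insert c0 J) I _ X (mem_insert_self c0 J) ha (l + 1)]
  · rw [update_idem, update_self, inv_mul_pow hq, corr, cst_symm q s I _ X _ ha (mem_insert_self c0 J)]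
  · rw [update_self, mul_assoc]
    exact inv_mul_cancel₀ (mul_ne_zero (g.nx a ha) (pow_ne_zero _ hq))

/-- the difference of the two sides -/
noncomputable def Del (q s : F) (I J : Finset ι) (X Z : ι → F) : PowerSeries F :=
  Aser q s I J X Z * ∏ j ∈ range J.card, fser q s (s ^ j) -
    Aser q s J I Z X * ∏ j ∈ range I.card, fser q s (s ^ j)

theorem step {q : F} (s : F) (hq : q ≠ 0) {I J : Finset ι} {c0 : ι} (hc : c0 ∉ J) (Z : ι → F)
    (ih : ∀ X, Gen q I J X Z → Del q s I J X Z = 0) (N : ℕ) :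
    ∀ (X : ι → F) (t : F), Gen q I J X Z → t ≠ 0 →
      (∀ c ∈ J, ∀ m n : ℕ, t * q ^ m ≠ Z c * q ^ n) →
      (∀ a ∈ I, ∀ l : ℕ, X a * t * q ^ (l + 1) ≠ 1) →
      PowerSeries.X ^ N ∣ Del q s I (insert c0 J) X (update Z c0 t) := by
  induction N with
  | zero => intros; simp
  | succ N ihN =>
    intro X t g ht htz htx
    have hA := serA s hq hc g ht htx N
    have hB := serB s hq hc g ht htz htx N
    have h0 := ih X g
    have hs : PowerSeries.X ^ (N + 1) ∣ ∑ a ∈ I, ∑ l ∈ range N,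
        PowerSeries.C (corr q s I J X Z c0 t a l) * (PowerSeries.X ^ (l + 1) *
          Del q s I (insert c0 J) (update X a (X a * q ^ (l + 1))) (update Z c0 (X a)⁻¹)) := by
      refine dvd_sum fun a ha => dvd_sum fun l _ => Dvd.dvd.mul_left ?_ _
      rw [pow_succ', pow_succ' _ l]
      refine mul_dvd_mul (dvd_mul_right _ _) (ihN _ _ (g.shift hq a _) (inv_ne_zero (g.nx a ha))
        (fun c hcJ m n h => g.cr a ha c hcJ n m ?_) fun a' ha' l' h => ?_)
      · rw [mul_assoc, ← h, ← mul_assoc, mul_inv_cancel₀ (g.nx a ha), one_mul]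
      · have hx := g.nx a ha
        by_cases haa : a' = a
        · subst haa
          rw [update_self] at h
          have := (g.sx a' ha a' ha (l + 1 + (l' + 1)) 0 (by
            field_simp at h
            rw [pow_zero, mul_one]
            linear_combination (X a') * h)).2
          omega
        · rw [update_of_ne haa] at h
          exact haa (g.sx a' ha' a ha (l' + 1) 0 (by
            field_simp at h
            rw [pow_zero, mul_one]
            linear_combination h)).1
    have e : ∑ a ∈ I, ∑ l ∈ range N,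
        PowerSeries.C (corr q s I J X Z c0 t a l) * (PowerSeries.X ^ (l + 1) *
          Del q s I (insert c0 J) (update X a (X a * q ^ (l + 1))) (update Z c0 (X a)⁻¹)) =
        (∑ a ∈ I, ∑ l ∈ range N,
          PowerSeries.C (corr q s I J X Z c0 t a l) * (PowerSeries.X ^ (l + 1) *
          Aser q s I (insert c0 J) (update X a (X a * q ^ (l + 1))) (update Z c0 (X a)⁻¹))) *
            ∏ j ∈ range (insert c0 J).card, fser q s (s ^ j) -
        (∑ a ∈ I, ∑ l ∈ range N,
          PowerSeries.C (corr q s I J X Z c0 t a l) * (PowerSeries.X ^ (l + 1) *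
          Aser q s (insert c0 J) I (update Z c0 (X a)⁻¹) (update X a (X a * q ^ (l + 1))))) *
            ∏ j ∈ range I.card, fser q s (s ^ j) := by
      simp only [sum_mul, ← sum_sub_distrib, Del]
      exact sum_congr rfl fun a _ => sum_congr rfl fun l _ => by ring
    have := ((hA.mul_right (∏ j ∈ range (insert c0 J).card, fser q s (s ^ j))).sub
      (hB.mul_right (∏ j ∈ range I.card, fser q s (s ^ j)))).sub
      (hs.mul_left (PowerSeries.C (1 - s)))
    convert this using 1
    rw [e]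
    unfold Del at h0 ⊢
    rw [card_insert_of_notMem hc, prod_range_succ]
    linear_combination (fser q s (s ^ J.card)) * h0

theorem del_symm (q s : F) (I J : Finset ι) (X Z : ι → F) :
    Del q s J I Z X = -Del q s I J X Z := by
  unfold Del
  ring

theorem del_insert {q : F} (s : F) (hq : q ≠ 0) {I J : Finset ι} {c0 : ι} (hc : c0 ∉ J)
    (ih : ∀ X Z, Gen q I J X Z → Del q s I J X Z = 0) {X Z : ι → F}
    (g : Gen q I (insert c0 J) X Z) : Del q s I (insert c0 J) X Z = 0 := by
  have g' : Gen q I J X Z := ⟨g.nx, fun c h => g.nz c (mem_insert_of_mem h), g.sx,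
    fun a h a' h' => g.sz a (mem_insert_of_mem h) a' (mem_insert_of_mem h'),
    fun a h c h' => g.cr a h c (mem_insert_of_mem h')⟩
  ext k
  have := step s hq hc Z (fun X => ih X Z) (k + 1) X (Z c0) g' (g.nz c0 (mem_insert_self _ _))
    (fun c h m n hh => hc ((g.sz c0 (mem_insert_self _ _) c (mem_insert_of_mem h) m n hh).1 ▸ h))
    (fun a h l hh => g.cr a h c0 (mem_insert_self _ _) (l + 1) 0 (by rw [hh, pow_zero]))
  rw [update_eq_self, PowerSeries.X_pow_dvd_iff] at this
  rw [this k (Nat.lt_succ_self k), map_zero]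

theorem del_zero {q : F} (s : F) (hq : q ≠ 0) (I J : Finset ι) :
    ∀ X Z : ι → F, Gen q I J X Z → Del q s I J X Z = 0 := by
  induction J using Finset.induction_on with
  | insert c0 J hc ih => exact fun X Z g => del_insert s hq hc ih g
  | empty =>
    induction I using Finset.induction_on with
    | insert a0 I ha ih =>
      intro X Z g
      rw [del_symm, del_insert s hq ha (fun Z X g => by rw [del_symm, ih X Z g.symm, neg_zero])
        g.symm, neg_zero]
    | empty =>
      intro X Z _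
      unfold Del Aser
      simp [term]

theorem dual : DualStmt := by
  intro F ι _ _ q s I J X Z hq hr nx nz sx sz cr
  have sep : ∀ (I : Finset ι) (X : ι → F), (∀ a ∈ I, X a ≠ 0) →
      (∀ a ∈ I, ∀ a' ∈ I, ∀ r : ℤ, X a = X a' * q ^ r → a = a') →
      ∀ a ∈ I, ∀ a' ∈ I, ∀ m n : ℕ, X a * q ^ m = X a' * q ^ n → a = a' ∧ m = n := by
    intro I X nx sx a ha a' ha' m n h
    have h1 : X a = X a' * q ^ ((n : ℤ) - m) := by
      rw [zpow_sub₀ hq, zpow_natCast, zpow_natCast, ← mul_div_assoc, ← h,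
        mul_div_cancel_right₀ _ (pow_ne_zero _ hq)]
    have h2 := sx a ha a' ha' _ h1
    subst h2
    have h3 := hr ((n : ℤ) - m) (mul_left_cancel₀ (nx a ha) (by rw [← h1, mul_one]))
    exact ⟨rfl, by omega⟩
  refine sub_eq_zero.mp (del_zero s hq I J X Z ⟨nx, nz, sep I X nx sx, sep J Z nz sz, ?_⟩)
  intro a ha c hc m n h
  refine cr a ha c hc ((m : ℤ) - n) ?_
  rw [zpow_sub₀ hq, zpow_natCast, zpow_natCast, ← mul_div_assoc, h, div_self (pow_ne_zero _ hq)]

end Pool.Agent.MP_8be872_ag.H71
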