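import Pool.Agent.MP_8be872_ag.H56.GSpec
import Pool.Agent.MP_8be872_ag.H38.Hahn

/-! The Euler characteristic of the Koszul homology is a coefficient of a Hahn series. -/

namespace Pool.Agent.MP_8be872_ag.H71

open Finset Module H38 H56

/-! ### Linear algebra -/

section Lin

variable {M : Type} [AddCommGroup M] [Module ℂ M]

lemma fr_map (S : Submodule ℂ M) [FiniteDimensional ℂ S] (f : M →ₗ[ℂ] M) :
    finrank ℂ S = finrank ℂ (S.map f) + finrank ℂ (S ⊓ LinearMap.ker f : Submodule ℂ M) := by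
  rw [← LinearMap.finrank_range_add_finrank_ker (f.domRestrict S), LinearMap.range_domRestrict,
    LinearMap.ker_domRestrict, ← Submodule.finrank_map_subtype_eq S (Submodule.comap _ _),
    Submodule.map_comap_subtype]

lemma fr_quot (S B : Submodule ℂ M) [FiniteDimensional ℂ S] :
    finrank ℂ (S ⧸ B.submoduleOf S) + finrank ℂ (S ⊓ B : Submodule ℂ M) = finrank ℂ S := by
  rw [← Submodule.finrank_quotient_add_finrank (B.submoduleOf S), Submodule.submoduleOf,
    ← Submodule.finrank_map_subtype_eq S (Submodule.comap _ _), Submodule.map_comap_subtype]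

/-- One half of the Euler-Poincare formula. -/
lemma euler (E N U U' : Submodule ℂ M) [FiniteDimensional ℂ E] (d π pr : M →ₗ[ℂ] M)
    (hπ : LinearMap.ker π = N) (hdN : ∀ x ∈ N, d x ∈ N) (hdd : ∀ x, d (d x) = 0)
    (hdU : ∀ x ∈ U', d x ∈ U) (hdE : ∀ x ∈ E, d x ∈ E) (h1 : ∀ x, pr x ∈ E)
    (h2 : ∀ x ∈ E, pr x = x) (h3 : ∀ x ∈ U, pr x ∈ U) (h3' : ∀ x ∈ U', pr x ∈ U')
    (h4 : ∀ x ∈ N, pr x ∈ N) (h5 : ∀ x, pr (d x) = d (pr x)) :
    finrank ℂ (((U ⊔ N) ⊓ N.comap d ⊓ E : Submodule ℂ M) ⧸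
        (U'.map d ⊔ N).submoduleOf ((U ⊔ N) ⊓ N.comap d ⊓ E)) +
      finrank ℂ ((U' ⊓ E).map (π ∘ₗ d)) + finrank ℂ ((U ⊓ E).map (π ∘ₗ d)) =
      finrank ℂ ((U ⊓ E).map π) := by
  have hN : ∀ x, π x = 0 ↔ x ∈ N := fun x => by rw [← hπ, LinearMap.mem_ker]
  have fin : ∀ X : Submodule ℂ M, FiniteDimensional ℂ (X ⊓ E : Submodule ℂ M) := fun X =>
    Submodule.finiteDimensional_of_le inf_le_right
  have fin' : ∀ X Y : Submodule ℂ M, FiniteDimensional ℂ (X ⊓ E ⊓ Y : Submodule ℂ M) := fun X Y =>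
    Submodule.finiteDimensional_of_le (inf_le_left.trans inf_le_right)
  have a1 := fr_quot ((U ⊔ N) ⊓ N.comap d ⊓ E) (U'.map d ⊔ N)
  have a2 := fr_map ((U ⊔ N) ⊓ N.comap d ⊓ E) π
  have a3 := fr_map ((U'.map d ⊔ N) ⊓ E) π
  have a4 := fr_map (U ⊓ E) (π ∘ₗ d)
  have a5 := fr_map (U ⊓ E ⊓ LinearMap.ker (π ∘ₗ d)) π
  have a6 := fr_map (U ⊓ E) π
  have hBZ : U'.map d ⊔ N ≤ (U ⊔ N) ⊓ N.comap d := by
    refine sup_le ?_ (le_inf le_sup_right hdN)
    rintro _ ⟨y, hy, rfl⟩
    exact ⟨Submodule.mem_sup_left (hdU y hy), by simp [hdd]⟩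
  have e1 : (U ⊔ N) ⊓ N.comap d ⊓ E ⊓ (U'.map d ⊔ N) = (U'.map d ⊔ N) ⊓ E := by
    rw [inf_right_comm, inf_eq_right.2 hBZ]
  have e2 : (U ⊔ N) ⊓ N.comap d ⊓ E ⊓ LinearMap.ker π = (U'.map d ⊔ N) ⊓ E ⊓ LinearMap.ker π := by
    rw [hπ, inf_right_comm, inf_right_comm (U'.map d ⊔ N), inf_eq_right.2 (le_sup_right.trans hBZ),
      inf_eq_right.2 (le_sup_right : N ≤ U'.map d ⊔ N)]
  have e3 : U ⊓ E ⊓ LinearMap.ker (π ∘ₗ d) ⊓ LinearMap.ker π = U ⊓ E ⊓ LinearMap.ker π := by
    rw [inf_assoc, inf_eq_right.2 (show LinearMap.ker π ≤ LinearMap.ker (π ∘ₗ d) from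
      fun x hx => (hN _).2 (hdN x ((hN x).1 hx)))]
  have e4 : ((U ⊔ N) ⊓ N.comap d ⊓ E).map π = (U ⊓ E ⊓ LinearMap.ker (π ∘ₗ d)).map π := by
    apply le_antisymm
    · rintro _ ⟨z, ⟨⟨hz, hdz⟩, hE⟩, rfl⟩
      obtain ⟨y, hy, n, hn, rfl⟩ := Submodule.mem_sup.1 hz
      have e : pr y = y + n - pr n := by rw [← h2 _ hE, map_add, add_sub_cancel_right]
      refine ⟨pr y, ⟨⟨h3 y hy, h1 y⟩, (hN _).2 ?_⟩, ?_⟩
      · rw [e, map_sub]
        exact N.sub_mem hdz (hdN _ (h4 n hn))
      · rw [e, map_sub, (hN _).2 (h4 n hn), sub_zero]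
    · exact Submodule.map_mono fun y hy =>
        ⟨⟨Submodule.mem_sup_left hy.1.1, (hN _).1 hy.2⟩, hy.1.2⟩
  have e5 : ((U'.map d ⊔ N) ⊓ E).map π = (U' ⊓ E).map (π ∘ₗ d) := by
    apply le_antisymm
    · rintro _ ⟨z, ⟨hz, hE⟩, rfl⟩
      obtain ⟨_, ⟨y, hy, rfl⟩, n, hn, rfl⟩ := Submodule.mem_sup.1 hz
      refine ⟨pr y, ⟨h3' y hy, h1 y⟩, ?_⟩
      rw [← h2 _ hE, map_add, map_add, (hN _).2 (h4 n hn), add_zero, h5, LinearMap.comp_apply]
    · rintro _ ⟨y, hy, rfl⟩
      exact ⟨d y, ⟨Submodule.mem_sup_left ⟨y, hy.1, rfl⟩, hdE y hy.2⟩, rfl⟩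
  rw [e1] at a1
  rw [e2, e4] at a2
  rw [e5] at a3
  rw [e3] at a5
  omega

/-- A product of subspaces as a space of sections. -/
def piEquiv {O : Type} (T : O → Submodule ℂ M) :
    Submodule.pi Set.univ T ≃ₗ[ℂ] ((o : O) → T o) where
  toFun x o := ⟨x.1 o, x.2 o trivial⟩
  invFun y := ⟨fun o => y o, fun o _ => (y o).2⟩
  map_add' _ _ := rfl
  map_smul' _ _ := rfl
  left_inv _ := rfl
  right_inv _ := rfl

lemma fin_pi {O : Type} [Fintype O] (T : O → Submodule ℂ M) [∀ o, FiniteDimensional ℂ (T o)] :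
    FiniteDimensional ℂ (Submodule.pi Set.univ T) :=
  (piEquiv T).symm.finiteDimensional

lemma fr_pi {O : Type} [Fintype O] (T : O → Submodule ℂ M) [∀ o, FiniteDimensional ℂ (T o)] :
    finrank ℂ (Submodule.pi Set.univ T) = ∑ o, finrank ℂ (T o) := by
  rw [(piEquiv T).finrank_eq, finrank_pi_fintype]

end Lin

/-! ### The Koszul differential -/

section Kos

variable {O M : Type} [Fintype O] [DecidableEq O] [AddCommGroup M] [Module ℂ M]

lemma contr_apply (o : O) (φ : Finset O → M) (S : Finset O) :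
    contr o φ S = if o ∈ S then 0 else sgn o S • φ (insert o S) := by
  simp only [contr, LinearMap.pi_apply]
  split_ifs <;> rfl

lemma sgn_insert {o : O} (o' : O) {S : Finset O} (h : o ∉ S) :
    sgn o' (insert o S) =
      (if Fintype.equivFin O o < Fintype.equivFin O o' then -1 else 1) * sgn o' S := by
  unfold sgn
  rw [filter_insert]
  split_ifs
  · rw [card_insert_of_notMem fun h' => h (mem_filter.1 h').1, pow_succ]; ring
  · rw [one_mul]

lemma contr_anti (o o' : O) (φ : Finset O → M) (S : Finset O) :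
    contr o (contr o' φ) S = -contr o' (contr o φ) S := by
  simp only [contr_apply, mem_insert]
  by_cases h : o ∈ S
  · simp [h]
  by_cases h' : o' ∈ S
  · simp [h']
  by_cases e : o = o'
  · simp [e]
  have e' : o' ≠ o := Ne.symm e
  simp only [h, h', e, e', or_self, if_false, sgn_insert _ h, sgn_insert _ h', smul_smul,
    insert_comm o o']
  rw [← neg_smul]
  congr 1
  rcases lt_trichotomy (Fintype.equivFin O o) (Fintype.equivFin O o') with l | l | l
  · simp [l, l.not_gt, mul_comm]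
  · exact absurd ((Fintype.equivFin O).injective l) e
  · simp [l, l.not_gt, mul_comm]

variable {V P : Type} [Fintype V] [DecidableEq V] [CommRing P] [Algebra ℂ P]
  (L : V × V → Prop) [DecidablePred L] (μ : V × V → P)

lemma dKos_apply (φ : Finset (Subtype L) → P) (S : Finset (Subtype L)) :
    dKos L μ φ S = ∑ β : Subtype L, μ β * contr β φ S := by
  simp [dKos, LinearMap.sum_apply, Finset.sum_apply]

lemma dKos_dKos (φ : Finset (Subtype L) → P) : dKos L μ (dKos L μ φ) = 0 := by
  funext S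
  have e : dKos L μ (dKos L μ φ) S =
      ∑ β : Subtype L, ∑ β' : Subtype L, μ β * μ β' * contr β (contr β' φ) S := by
    rw [dKos_apply]
    refine sum_congr rfl fun β _ => ?_
    simp only [contr_apply β]
    split_ifs
    · simp
    · rw [dKos_apply, smul_sum, mul_sum]
      exact sum_congr rfl fun β' _ => by simp only [mul_assoc, mul_smul_comm]
  have e2 : dKos L μ (dKos L μ φ) S = -dKos L μ (dKos L μ φ) S := by
    conv_lhs => rw [e, sum_comm]
    rw [e, ← sum_neg_distrib]
    refine sum_congr rfl fun β _ => ?_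
    rw [← sum_neg_distrib]
    exact sum_congr rfl fun β' _ => by rw [contr_anti, mul_comm (μ β'), mul_neg]
  have e3 : (2 : ℂ) • dKos L μ (dKos L μ φ) S = 0 := by
    rw [two_smul]; exact add_eq_zero_iff_eq_neg.2 e2
  exact (smul_eq_zero.1 e3).resolve_left two_ne_zero

omit [Fintype O] [DecidableEq O] in
lemma mem_par {p : Bool} {φ : Finset O → M} :
    φ ∈ par O M p ↔ ∀ S : Finset O, decide (Odd S.card) ≠ p → φ S = 0 := Iff.rfl

lemma dKos_par (p : Bool) (φ : Finset (Subtype L) → P) (h : φ ∈ par _ _ (!p)) :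
    dKos L μ φ ∈ par _ _ p := by
  refine mem_par.2 fun S hS => ?_
  rw [dKos_apply]
  refine sum_eq_zero fun β _ => ?_
  rw [contr_apply]
  split_ifs with hβ
  · simp
  · rw [mem_par.1 h, smul_zero, mul_zero]
    rw [card_insert_of_notMem hβ]
    cases p <;> simpa [Nat.odd_add_one] using hS

end Kos

/-! ### Counting monomials -/

section Count

open MvPolynomial

variable {C : Type} [Fintype C] [DecidableEq C] (wt : C → G)

/-- Exponents in the variables `s` of weight `γ`. -/
def ex (s : Finset C) (γ : G) : Set (C →₀ ℕ) :=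
  {u | (∀ c, c ∉ s → u c = 0) ∧ Finsupp.weight wt u = γ}

variable {wt}

omit [Fintype C] [DecidableEq C] in
lemma co_weight (h1 : ∀ c, co 1 (wt c) = 1) (u : C →₀ ℕ) :
    co 1 (Finsupp.weight wt u) = u.degree := by
  simp [Finsupp.weight_apply, Finsupp.sum, h1, Finsupp.degree_apply]

omit [DecidableEq C] in
lemma ex_finite (h1 : ∀ c, co 1 (wt c) = 1) (s : Finset C) (γ : G) : (ex wt s γ).Finite :=
  (Finsupp.finite_of_degree_eq (co 1 γ).toNat).subset fun u hu => by
    have := co_weight h1 u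
    rw [hu.2] at this
    show u.degree = _
    omega

lemma ex_insert (h1 : ∀ c, co 1 (wt c) = 1) {s : Finset C} {c : C} (hc : c ∉ s) (γ : G) :
    (ex wt (insert c s) γ).ncard = (ex wt s γ).ncard + (ex wt (insert c s) (γ - wt c)).ncard := by
  have e : ex wt (insert c s) γ =
      ex wt s γ ∪ (· + Finsupp.single c 1) '' ex wt (insert c s) (γ - wt c) := by
    ext u
    constructor
    · rintro ⟨h, hw⟩
      by_cases hu : u c = 0
      · refine Or.inl ⟨fun b hb => ?_, hw⟩
        by_cases e : b = c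
        · rw [e, hu]
        · exact h b (by simp [e, hb])
      · have e : u - Finsupp.single c 1 + Finsupp.single c 1 = u :=
          tsub_add_cancel_of_le (Finsupp.single_le_iff.2 (by omega))
        refine Or.inr ⟨u - Finsupp.single c 1, ⟨fun b hb => by simp [h b hb], ?_⟩, e⟩
        rw [← e, map_add, Finsupp.weight_single, one_smul] at hw
        exact eq_sub_of_add_eq hw
    · rintro (⟨h, hw⟩ | ⟨u, ⟨h, hw⟩, rfl⟩)
      · exact ⟨fun b hb => h b fun h' => hb (mem_insert_of_mem h'), hw⟩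
      · refine ⟨fun b hb => ?_, ?_⟩
        · have : c ≠ b := fun e => hb (e ▸ mem_insert_self _ _)
          simp [h b hb, this]
        · rw [map_add, Finsupp.weight_single, one_smul, hw, sub_add_cancel]
  rw [e, Set.ncard_union_eq _ (ex_finite h1 _ _) ((ex_finite h1 _ _).image _),
    Set.ncard_image_of_injective _ (add_left_injective _)]
  rw [Set.disjoint_left]
  rintro _ ⟨h, -⟩ ⟨u, -, rfl⟩
  simpa using h c hc

lemma coeff_mon_mul (g γ : G) (f : K) : (mon g * f).coeff γ = f.coeff (γ - g) := by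
  rw [mon, HahnSeries.coeff_single_mul, one_mul]

lemma count (h0 : ∀ c, co 0 (wt c) = 0) (h1 : ∀ c, co 1 (wt c) = 1) (s : Finset C) (γ : G) :
    (∏ c ∈ s, (1 - mon (wt c))⁻¹).coeff γ = (ex wt s γ).ncard := by
  have hpos : ∀ c, 0 < wt c := fun c => pos_of_co1 (h0 c) (by rw [h1]; exact one_pos)
  induction s using Finset.induction_on generalizing γ with
  | empty =>
    rw [prod_empty, HahnSeries.coeff_one]
    split_ifs with h
    · have : ex wt ∅ γ = {0} := by
        ext u
        exact ⟨fun hu => Finsupp.ext fun c => hu.1 c (notMem_empty c),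
          fun hu => by rw [hu, h]; exact ⟨fun _ _ => rfl, map_zero _⟩⟩
      simp [this]
    · have : ex wt ∅ γ = ∅ := Set.eq_empty_of_forall_notMem fun u hu => h (by
        rw [← hu.2, show u = 0 from Finsupp.ext fun c => hu.1 c (notMem_empty c), map_zero])
      simp [this]
  | insert c s hc ih =>
    have hm : ∏ b ∈ insert c s, (1 - mon (wt b))⁻¹ ∈ CS (Ge0 (co 1)) :=
      Subring.prod_mem _ fun b _ => geo_mem (hpos b) (show (0 : ℤ) ≤ co 1 (wt b) by rw [h1]; omega)
    have hrec : ∀ γ, (∏ b ∈ insert c s, (1 - mon (wt b))⁻¹).coeff γ =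
        (∏ b ∈ s, (1 - mon (wt b))⁻¹).coeff γ +
          (∏ b ∈ insert c s, (1 - mon (wt b))⁻¹).coeff (γ - wt c) := fun γ => by
      rw [← coeff_mon_mul, ← HahnSeries.coeff_add, prod_insert hc]
      congr 1
      have := one_sub_mon_ne (hpos c).ne'
      field_simp
      ring
    have key : ∀ (n : ℕ) (γ : G), co 1 γ < n →
        (∏ b ∈ insert c s, (1 - mon (wt b))⁻¹).coeff γ = (ex wt (insert c s) γ).ncard := by
      intro n
      induction n with
      | zero =>
        intro γ hγ
        have : ex wt (insert c s) γ = ∅ := Set.eq_empty_of_forall_notMem fun u hu => by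
          have := co_weight h1 u
          rw [hu.2] at this
          omega
        rw [this, Set.ncard_empty, Nat.cast_zero]
        by_contra hne
        have : (0 : ℤ) ≤ co 1 γ := hm (show γ ∈ HahnSeries.support _ from hne)
        omega
      | succ n ihn =>
        intro γ hγ
        rw [hrec, ih, ihn _ (by rw [map_sub, h1]; push_cast at hγ; omega), ex_insert h1 hc γ,
          Nat.cast_add]
    exact key ((co 1 γ).toNat + 1) γ (by omega)

lemma coeff_prod {O : Type} [Fintype O] (c : O → G) (f : K) (γ : G) :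
    ((∏ o, (1 - mon (c o))) * f).coeff γ =
      ∑ S : Finset O, (-1 : ℚ) ^ S.card * f.coeff (γ - ∑ o ∈ S, c o) := by
  classical
  simp only [sub_eq_add_neg (1 : K)]
  rw [prod_one_add, powerset_univ, sum_mul, HahnSeries.coeff_sum]
  refine sum_congr rfl fun S _ => ?_
  rw [prod_neg, ← mon_sum, mul_assoc, ← coeff_mon_mul]
  rcases neg_one_pow_eq_or ℤ S.card with h | h
  · have h1 : (-1 : K) ^ S.card = 1 := by exact_mod_cast congrArg (Int.cast : ℤ → K) h
    have h2 : (-1 : ℚ) ^ S.card = 1 := by exact_mod_cast h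
    rw [h1, h2, one_mul, one_mul]
  · have h1 : (-1 : K) ^ S.card = -1 := by exact_mod_cast congrArg (Int.cast : ℤ → K) h
    have h2 : (-1 : ℚ) ^ S.card = -1 := by exact_mod_cast h
    rw [h1, h2, neg_one_mul, neg_one_mul, HahnSeries.coeff_neg]

/-- Removal of the monomials that involve a variable outside `s`. -/
noncomputable def cut (s : Finset C) : MvPolynomial C ℂ →ₗ[ℂ] MvPolynomial C ℂ :=
  weightedHomogeneousComponent (fun c => if c ∈ s then 0 else 1 : C → ℕ) 0

lemma coeff_cut (s : Finset C) (f : MvPolynomial C ℂ) (u : C →₀ ℕ) :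
    coeff u (cut s f) = if ∀ c, c ∉ s → u c = 0 then coeff u f else 0 := by
  rw [cut, coeff_weightedHomogeneousComponent]
  congr 1
  rw [Finsupp.weight_apply, Finsupp.sum_fintype _ _ (by simp), sum_eq_zero_iff]
  simp

lemma cut_eq_zero (s : Finset C) (f : MvPolynomial C ℂ) :
    cut s f = 0 ↔ f ∈ Ideal.span (X '' {c | c ∉ s} : Set (MvPolynomial C ℂ)) := by
  rw [mem_ideal_span_X_image, MvPolynomial.ext_iff]
  refine forall_congr' fun u => ?_
  rw [coeff_cut, MvPolynomial.mem_support_iff]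
  by_cases h : coeff u f = 0 <;> simp [h]

lemma map_cut (s : Finset C) (γ : G) :
    (weightedHomogeneousSubmodule ℂ wt γ).map (cut s) = restrictSupport ℂ (ex wt s γ) := by
  apply le_antisymm
  · rintro _ ⟨f, hf, rfl⟩ u hu
    replace hu : coeff u (cut s f) ≠ 0 := MvPolynomial.mem_support_iff.1 hu
    rw [coeff_cut] at hu
    split_ifs at hu with h
    · exact ⟨h, hf hu⟩
    · exact absurd rfl hu
  · intro f hf
    refine ⟨f, fun u hu => (hf (mem_coe.2 (MvPolynomial.mem_support_iff.2 hu))).2,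
      MvPolynomial.ext _ _ fun u => ?_⟩
    rw [coeff_cut]
    split_ifs with h
    · rfl
    · by_contra hne
      exact h (hf (mem_coe.2 (MvPolynomial.mem_support_iff.2 (Ne.symm hne)))).1

omit [DecidableEq C] in
lemma fin_res (h1 : ∀ c, co 1 (wt c) = 1) (s : Finset C) (γ : G) :
    FiniteDimensional ℂ (restrictSupport ℂ (ex wt s γ)) :=
  haveI := (ex_finite h1 s γ).to_subtype
  (basisRestrictSupport ℂ _).finiteDimensional_of_finite

omit [Fintype C] [DecidableEq C] in
lemma fr_res (s : Finset C) (γ : G) :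
    finrank ℂ (restrictSupport ℂ (ex wt s γ)) = (ex wt s γ).ncard := by
  rw [Module.finrank_eq_nat_card_basis (basisRestrictSupport ℂ _), Nat.card_coe_set_eq]

omit [DecidableEq C] in
lemma fin_W (h1 : ∀ c, co 1 (wt c) = 1) (γ : G) :
    FiniteDimensional ℂ (weightedHomogeneousSubmodule ℂ wt γ) :=
  haveI := fin_res h1 univ γ
  Submodule.finiteDimensional_of_le (S₂ := restrictSupport ℂ (ex wt univ γ))
    fun _ hf _ hu => ⟨fun c hc => absurd (mem_univ c) hc, hf (MvPolynomial.mem_support_iff.1 hu)⟩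

omit [Fintype C] [DecidableEq C] in
lemma comp_mul {a : MvPolynomial C ℂ} {m : G} (ha : IsWeightedHomogeneous wt a m) (γ : G)
    (f : MvPolynomial C ℂ) :
    weightedHomogeneousComponent wt γ (a * f) = a * weightedHomogeneousComponent wt (γ - m) f := by
  classical
  induction f using MvPolynomial.induction_on' with
  | monomial u r =>
    have h := isWeightedHomogeneous_monomial wt u r rfl
    rw [weightedHomogeneousComponent_of_mem (ha.mul h), weightedHomogeneousComponent_of_mem h]
    simp only [sub_eq_iff_eq_add']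
    split_ifs <;> simp
  | add p q hp hq => simp only [mul_add, map_add, hp, hq]

variable {V : Type} [Fintype V] [DecidableEq V] (L : V × V → Prop) [DecidablePred L]

/-- Euler-Poincare formula for the Koszul complex over the quotient by some variables. -/
lemma kos_euler (h0 : ∀ c, co 0 (wt c) = 0) (h1 : ∀ c, co 1 (wt c) = 1) (s : Finset C)
    (μ : V × V → MvPolynomial C ℂ) (c : Subtype L → G)
    (hμ : ∀ β : Subtype L, IsWeightedHomogeneous wt (μ β) (c β))
    (I : Ideal (MvPolynomial C ℂ)) (hI : I = Ideal.span (X '' {c | c ∉ s})) (γ : G) :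
    (finrank ℂ (Qt (extW c (weightedHomogeneousSubmodule ℂ wt)) (kosZ L μ I false)
        (kosB L μ I false) γ) : ℚ) -
      finrank ℂ (Qt (extW c (weightedHomogeneousSubmodule ℂ wt)) (kosZ L μ I true)
        (kosB L μ I true) γ) =
      ((∏ β, (1 - mon (c β))) * ∏ b ∈ s, (1 - mon (wt b))⁻¹).coeff γ := by
  classical
  have := fin_W h1
  have := fin_res h1
  have : FiniteDimensional ℂ (extW c (weightedHomogeneousSubmodule ℂ wt) γ) := fin_pi _
  let pr : (Finset (Subtype L) → MvPolynomial C ℂ) →ₗ[ℂ] (Finset (Subtype L) → MvPolynomial C ℂ) :=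
    LinearMap.pi fun S => weightedHomogeneousComponent wt (γ - ∑ o ∈ S, c o) ∘ₗ LinearMap.proj S
  have hpr : ∀ φ S, pr φ S = weightedHomogeneousComponent wt (γ - ∑ o ∈ S, c o) (φ S) :=
    fun _ _ => rfl
  have hI' : ∀ f, f ∈ I ↔ cut s f = 0 := fun f => by rw [hI, cut_eq_zero]
  have h5 : ∀ φ, pr (dKos L μ φ) = dKos L μ (pr φ) := fun φ => funext fun S => by
    rw [hpr, dKos_apply, dKos_apply, map_sum]
    refine sum_congr rfl fun β _ => ?_
    rw [comp_mul (hμ β), contr_apply, contr_apply]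
    split_ifs with hβ
    · simp
    · rw [map_smul, hpr, sum_insert hβ, sub_sub, add_comm]
  have h1' : ∀ φ, pr φ ∈ extW c (weightedHomogeneousSubmodule ℂ wt) γ := fun φ S _ =>
    weightedHomogeneousComponent_mem _ _ _
  have h2 : ∀ φ ∈ extW c (weightedHomogeneousSubmodule ℂ wt) γ, pr φ = φ := fun φ h =>
    funext fun S => weightedHomogeneousComponent_eq_self (h S trivial)
  have h3 : ∀ p, ∀ φ ∈ par _ _ p, pr φ ∈ par _ _ p := fun p φ h =>
    mem_par.2 fun S hS => by rw [hpr, mem_par.1 h S hS, map_zero]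
  have key := fun p => euler (extW c (weightedHomogeneousSubmodule ℂ wt) γ)
    (extOf _ (I.restrictScalars ℂ)) (par _ _ p) (par _ _ (!p)) (dKos L μ)
    ((cut s).compLeft _) pr
    (Submodule.ext fun φ => ⟨fun h S _ => (hI' _).2 (congrFun h S),
      fun h => funext fun S => (hI' _).1 (h S trivial)⟩)
    (fun φ h S _ => by
      rw [dKos_apply]
      refine I.sum_mem fun β _ => I.mul_mem_left _ ?_
      rw [contr_apply]
      split_ifs
      · exact I.zero_mem
      · exact (I.restrictScalars ℂ).smul_mem _ (h _ trivial))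
    (dKos_dKos L μ) (dKos_par L μ p) (fun φ h => by rw [← h2 φ h, ← h5]; exact h1' _) h1' h2
    (h3 p) (h3 _)
    (fun φ h S _ => (hI' _).2 (MvPolynomial.ext _ _ fun u => by
      have := congrArg (coeff u) ((hI' _).1 (h S trivial))
      rw [coeff_cut] at this
      rw [coeff_cut, hpr, coeff_weightedHomogeneousComponent]
      split_ifs at this ⊢ <;> simp_all))
    h5
  have hdim : ∀ p, finrank ℂ ((par _ _ p ⊓ extW c (weightedHomogeneousSubmodule ℂ wt) γ).map
      ((cut s).compLeft _)) = ∑ S : Finset (Subtype L),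
        if decide (Odd S.card) = p then (ex wt s (γ - ∑ o ∈ S, c o)).ncard else 0 := fun p => by
    have e : (par _ _ p ⊓ extW c (weightedHomogeneousSubmodule ℂ wt) γ).map ((cut s).compLeft _) =
        Submodule.pi Set.univ fun S : Finset (Subtype L) => if decide (Odd S.card) = p then
          restrictSupport ℂ (ex wt s (γ - ∑ o ∈ S, c o)) else ⊥ := by
      apply le_antisymm
      · rintro _ ⟨φ, ⟨hp, hW⟩, rfl⟩ S -
        show cut s (φ S) ∈ (if decide (Odd S.card) = p then
          restrictSupport ℂ (ex wt s (γ - ∑ o ∈ S, c o)) else ⊥ : Submodule ℂ _)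
        split_ifs with hS
        · rw [← map_cut]
          exact ⟨_, hW S trivial, rfl⟩
        · rw [mem_par.1 hp S hS, map_zero]
          exact Submodule.zero_mem _
      · intro ψ hψ
        have : ∀ S, ∃ f, (decide (Odd S.card) ≠ p → f = 0) ∧
            f ∈ weightedHomogeneousSubmodule ℂ wt (γ - ∑ o ∈ S, c o) ∧ cut s f = ψ S := fun S => by
          have h := hψ S trivial
          dsimp only at h
          split_ifs at h with hS
          · rw [← map_cut] at h
            obtain ⟨f, hf, e⟩ := h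
            exact ⟨f, fun h => absurd hS h, hf, e⟩
          · exact ⟨0, fun _ => rfl, Submodule.zero_mem _, by rw [map_zero]; exact h.symm⟩
        choose φ a1 a2 a3 using this
        exact ⟨φ, ⟨mem_par.2 a1, fun S _ => a2 S⟩, funext a3⟩
    have : ∀ S : Finset (Subtype L), FiniteDimensional ℂ (if decide (Odd S.card) = p then
        restrictSupport ℂ (ex wt s (γ - ∑ o ∈ S, c o)) else ⊥ : Submodule ℂ _) := fun S => by
      by_cases hS : decide (Odd S.card) = p
      · rw [if_pos hS]; infer_instance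
      · rw [if_neg hS]; infer_instance
    rw [e, fr_pi]
    refine sum_congr rfl fun S _ => ?_
    by_cases hS : decide (Odd S.card) = p
    · rw [if_pos hS, if_pos hS, fr_res]
    · rw [if_neg hS, if_neg hS, finrank_bot]
  have k0 := key false
  have k1 := key true
  rw [hdim, Bool.not_false] at k0
  rw [hdim, Bool.not_true] at k1
  have k0' := congrArg (Nat.cast : ℕ → ℚ) k0
  have k1' := congrArg (Nat.cast : ℕ → ℚ) k1
  push_cast at k0' k1'
  rw [coeff_prod]
  have e : ∑ S : Finset (Subtype L), (-1 : ℚ) ^ S.card *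
      (∏ b ∈ s, (1 - mon (wt b))⁻¹).coeff (γ - ∑ o ∈ S, c o) =
      (∑ S : Finset (Subtype L), if decide (Odd S.card) = false then
        ((ex wt s (γ - ∑ o ∈ S, c o)).ncard : ℚ) else 0) -
      ∑ S : Finset (Subtype L), if decide (Odd S.card) = true then
        ((ex wt s (γ - ∑ o ∈ S, c o)).ncard : ℚ) else 0 := by
    rw [← sum_sub_distrib]
    refine sum_congr rfl fun S _ => ?_
    rw [count h0 h1]
    rcases Nat.even_or_odd S.card with h | h
    · simp [h.neg_one_pow, Nat.not_odd_iff_even.2 h]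
    · simp [h.neg_one_pow, h]
  rw [e, ← k0', ← k1']
  have key : ∀ a b c d : ℚ, a - b = a + c + d - (b + d + c) := fun a b c d => by ring
  exact key _ _ _ _

end Count

open MvPolynomial in
theorem char : RepStmt → CharStmt := by
  classical
  intro _ Q w v d γ
  have hx : ∀ p, co 0 (basWt Q w v p) = 0 ∧ co 1 (basWt Q w v p) = 0 := by
    rintro (a | b) <;> simp [basWt, xV, uF, co_gen]
  have ht : ∀ ε, co 0 (arrWt Q ε) = 0 ∧ co 1 (arrWt Q ε) = -1 := by
    rintro ⟨_ | e, _ | _⟩ <;> simp [arrWt, tE, tau, co_gen]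
  have h0 : ∀ c : Co Q w v, co 0 (polWt (basWt Q w v) (arrWt Q) 0 (some c)) = 0 := by
    rintro ⟨ε, p, q⟩; simp [polWt, hx, ht]
  have h1 : ∀ c : Co Q w v, co 1 (polWt (basWt Q w v) (arrWt Q) 0 (some c)) = 1 := by
    rintro ⟨ε, p, q⟩; simp [polWt, hx, ht]
  have hμ : ∀ β : Subtype (RelP Q v d), IsWeightedHomogeneous
      (fun c : Co Q w v => polWt (basWt Q w v) (arrWt Q) 0 (some c)) (mom0 Q w v β)
      (relWt Q v d β) := fun β => by
    have key : ∀ ε ε' : Arr Q, arrWt Q ε + arrWt Q ε' = -hb → IsWeightedHomogeneous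
        (fun c : Co Q w v => polWt (basWt Q w v) (arrWt Q) 0 (some c))
        ((mat0 ε * mat0 ε' : Matrix (Bas Q v ⊕ Bas Q w) (Bas Q v ⊕ Bas Q w) _)
          (.inl β.1.1) (.inl β.1.2)) (relWt Q v d β) := fun ε ε' h => by
      rw [Matrix.mul_apply]
      refine IsWeightedHomogeneous.sum _ _ _ fun r _ => ?_
      have e : relWt Q v d β = polWt (basWt Q w v) (arrWt Q) 0 (some (ε, .inl β.1.1, r)) +
          polWt (basWt Q w v) (arrWt Q) 0 (some (ε', r, .inl β.1.2)) := by
        rw [relWt, ← neg_neg hb, ← h]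
        simp only [polWt, basWt]
        abel
      rw [e]
      exact (isWeightedHomogeneous_X _ _ _).mul (isWeightedHomogeneous_X _ _ _)
    refine IsWeightedHomogeneous.sum _ _ _ fun o _ => ?_
    rw [Matrix.sub_apply]
    refine (key _ _ ?_).sub (key _ _ ?_) <;> rcases o with _ | e <;>
      simp only [arrWt, hb] <;> abel
  have hI : lin0 Q w v d =
      Ideal.span (X '' {c | c ∉ univ.filter fun c => allowed Q w v d c}) := by
    rw [lin0]
    congr 1
    ext f
    simp [eq_comm]
  refine ⟨fun p γ' => ?_, ?_⟩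
  · have : ∀ g, FiniteDimensional ℂ (polW0 (basWt Q w v) (arrWt Q) g) := fin_W h1
    have : FiniteDimensional ℂ (extW (relWt Q v d) (polW0 (basWt Q w v) (arrWt Q)) γ') := fin_pi _
    have : FiniteDimensional ℂ (kosZ (RelP Q v d) (mom0 Q w v) (lin0 Q w v d) p ⊓
        extW (relWt Q v d) (polW0 (basWt Q w v) (arrWt Q)) γ' : Submodule ℂ _) :=
      Submodule.finiteDimensional_of_le inf_le_right
    infer_instance
  · rw [fixB, mul_assoc, coeff_prod]
    refine sum_congr rfl fun S _ => ?_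
    congr 1
    exact kos_euler (RelP Q v d) h0 h1 _ (mom0 Q w v) (relWt Q v d) hμ _ hI _

end Pool.Agent.MP_8be872_ag.H71
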