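import Pool.Agent.MP_8be872_ag.H71.ObsA

/-! Observability indices. -/

namespace Pool.Agent.MP_8be872_ag.H71

open Finset H38 H56 H63
open scoped Matrix

namespace ObsL

variable {Q : Quiv} {w v D : Fin Q.n → ℕ} {α : Matrix (Nb Q w v D) (Nb Q w v D) ℂ}

theorem pow_eig {s : ℂ} {z : Nb Q w v D → ℂ} (h : α *ᵥ z = s • z) (k : ℕ) :
    (α ^ k) *ᵥ z = s ^ k • z := by
  induction k with
  | zero => simp
  | succ k ih => rw [pow_succ, ← Matrix.mulVec_mulVec, h, Matrix.mulVec_smul, ih, smul_smul,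
      pow_succ']

theorem zero_of_minor {B : Bas Q D → Bas Q v × ℕ} (hB : (Mx α B).det ≠ 0) {s : ℂ}
    {z : Nb Q w v D → ℂ} (hz : ∀ p, blk p ≠ 0 → z p = 0) (h : α *ᵥ z = s • z) : z = 0 := by
  have h0 : ∀ q, z (.inr q) = 0 := fun q => hz _ (by rcases q with a | b <;> simp [blk])
  have h1 : Mx α B *ᵥ (fun τ => z (.inl τ)) = 0 := by
    funext τ
    have := congrFun (pow_eig h ((B τ).2 + 1)) (.inr (.inl (B τ).1))
    rw [Pi.smul_apply, h0, smul_zero, Matrix.mulVec, dotProduct, Fintype.sum_sum_type] at this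
    simpa [h0, Matrix.mulVec, dotProduct, Mx, rho] using this
  have h2 := Matrix.eq_zero_of_mulVec_eq_zero hB h1
  funext p
  rcases p with τ | q
  · exact congrFun h2 τ
  · exact h0 q

theorem ker_bot (h : Sh α) (hs : ∀ (s : ℂ) (z : Nb Q w v D → ℂ), (∀ p, blk p ≠ 0 → z p = 0) →
    α *ᵥ z = s • z → z = 0) (y : Bas Q D → ℂ) (hy : ∀ x, rho α x ⬝ᵥ y = 0) : y = 0 := by
  let K : Submodule ℂ (Bas Q D → ℂ) :=
    { carrier := {y | ∀ x, rho α x ⬝ᵥ y = 0}
      add_mem' := fun {a b} ha hb x => by rw [dotProduct_add, ha x, hb x, add_zero]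
      zero_mem' := fun x => dotProduct_zero _
      smul_mem' := fun c a ha x => by rw [dotProduct_smul, ha x, smul_zero] }
  have hK : ∀ y ∈ K, (tt α).mulVecLin y ∈ K := fun y hy x => by
    rw [Matrix.mulVecLin_apply, Matrix.dotProduct_mulVec, ← rho_succ h x.1 x.2]
    exact hy _
  by_contra hn
  have : Nontrivial K := ⟨⟨⟨y, hy⟩, 0, fun e => hn (congrArg Subtype.val e)⟩⟩
  obtain ⟨s, hs'⟩ := Module.End.exists_eigenvalue ((tt α).mulVecLin.restrict hK)
  obtain ⟨u, hu⟩ := hs'.exists_hasEigenvector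
  have e1 : tt α *ᵥ u.1 = s • u.1 := congrArg Subtype.val hu.apply_eq_smul
  have e2 := hs s (Sum.elim u.1 0) (fun p hp => by
    rcases p with τ | q
    · exact absurd rfl hp
    · rfl) (by
    funext p
    rw [Matrix.mulVec, dotProduct, Fintype.sum_sum_type]
    simp only [Sum.elim_inl, Sum.elim_inr, Pi.zero_apply, mul_zero, sum_const_zero, add_zero]
    rcases p with τ | a | b
    · exact congrFun e1 τ
    · have := u.2 (a, 0)
      simpa [dotProduct, rho_zero] using this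
    · refine (sum_eq_zero fun τ _ => mul_eq_zero_of_left (by_contra fun hn => ?_) _).trans
        (by simp)
      obtain ⟨_, -, -, h3⟩ := h _ _ hn
      simp [blk] at h3)
  exact hu.2 (Subtype.ext (funext fun τ => congrFun e2 (.inl τ)))

theorem exists_basis (hk : ∀ y : Bas Q D → ℂ, (∀ x, rho α x ⬝ᵥ y = 0) → y = 0) :
    ∃ B : Bas Q D → Bas Q v × ℕ, (Mx α B).det ≠ 0 := by
  have hsp : Submodule.span ℂ (Set.range (rho α)) = ⊤ := by
    by_contra hn
    obtain ⟨f, hf, hle⟩ := Submodule.exists_le_ker_of_lt_top _ (lt_top_iff_ne_top.2 hn)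
    have e : ∀ x, f x = x ⬝ᵥ fun τ => f (Pi.single τ 1) := fun x => by
      conv_lhs => rw [pi_eq_sum_univ' x]
      simp [dotProduct]
    have := hk (fun τ => f (Pi.single τ 1)) fun x => by
      rw [← e]
      exact hle (Submodule.subset_span ⟨x, rfl⟩)
    exact hf (LinearMap.ext fun x => by rw [e, this]; simp)
  obtain ⟨κ, a, -, h1, h2⟩ := exists_linearIndependent' ℂ (rho α)
  let b := Module.Basis.mk h2 (by rw [h1, hsp])
  let e := (Pi.basisFun ℂ (Bas Q D)).indexEquiv b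
  refine ⟨a ∘ e, IsUnit.ne_zero ((Matrix.isUnit_iff_isUnit_det _).1
    (Matrix.linearIndependent_rows_iff_isUnit.1 ?_))⟩
  exact h2.comp e e.injective

section slice

variable {d : Bas Q v → ℕ} {lab : Bas Q D → Bas Q v × ℕ} {z : Matrix (Nb Q w v D) (Nb Q w v D) ℂ}

theorem hp_vx (hl : IsLab d lab) {p : Nb Q w v D} {x : Bas Q v × ℕ} (h : hp lab p = some x) :
    vx p = x.1.1 ∧ blk p < 2 := by
  rcases p with τ | a | b
  · obtain rfl := Option.some.inj h
    exact ⟨(hl.vert τ).symm, by simp [blk]⟩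
  · obtain rfl := Option.some.inj h
    exact ⟨rfl, by simp [blk]⟩
  · cases h

theorem sh_slice (hl : IsLab d lab) (hz : ∀ p q, ¬ shS lab ka p q → z p q = 0) :
    Sh (al0 lab + z) := by
  intro p q hn
  by_cases h : al0 lab p q = 0
  · rw [Matrix.add_apply, h, zero_add] at hn
    exact sh_of_shape (R := radF) (by_contra fun h' => hn (hz p q fun h'' => h' h''.1))
  · rcases q with τ | q
    · have e : hp lab p = some (lab τ) := by_contra fun e => h (if_neg e)
      exact ⟨τ, rfl, (hp_vx hl e).1.trans (hl.vert τ), (hp_vx hl e).2⟩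
    · exact absurd rfl h

theorem row_low (hl : IsLab d lab) (hz : ∀ p q, ¬ shS lab ka p q → z p q = 0) {p : Nb Q w v D}
    {τ : Bas Q D} (h : hp lab p = some (lab τ)) (τ' : Bas Q D) :
    (al0 (w := w) lab + z :) p (.inl τ') = (Pi.single τ 1 : Bas Q D → ℂ) τ' := by
  have h1 : z p (.inl τ') = 0 := hz _ _ fun hs => by
    have := hs.2 rfl (.inl τ)
    simp [al0, h] at this
  simp [al0, h, h1, hl.inj.eq_iff, Pi.single_apply, eq_comm]

theorem row_top (hl : IsLab d lab) {p : Nb Q w v D} {a : Bas Q v} (h : hp lab p = some (a, d a))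
    (τ' : Bas Q D) : (al0 (w := w) lab + z :) p (.inl τ') = z p (.inl τ') := by
  have : ¬ hp lab p = some (lab τ') := fun e => by
    have h1 := hl.lt τ'
    rw [← Option.some.inj (h.symm.trans e)] at h1
    exact lt_irrefl _ h1
  simp [al0, this]

theorem hp_inj (hl : IsLab d lab) {p p' : Nb Q w v D} {x : Bas Q v × ℕ} (h : hp lab p = some x)
    (h' : hp lab p' = some x) : p = p' := by
  rcases p with τ | a | b <;> rcases p' with τ' | a' | b' <;>
    simp only [hp, Option.some.injEq, reduceCtorEq] at h h'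
  · rw [← h', Prod.mk.injEq] at h
    rw [hl.inj (Prod.ext h.1 (by omega))]
  · rw [← h', Prod.mk.injEq] at h
    omega
  · rw [← h', Prod.mk.injEq] at h
    omega
  · rw [← h', Prod.mk.injEq] at h
    rw [h.1]

theorem rho_row (hl : IsLab d lab) (hz : ∀ p q, ¬ shS lab ka p q → z p q = 0) (a : Bas Q v)
    (k : ℕ) (hk : k ≤ d a) : ∃ p : Nb Q w v D, hp lab p = some (a, k) ∧
      ∀ τ, rho (al0 lab + z) (a, k) τ = (al0 (w := w) lab + z :) p (.inl τ) := by
  induction k with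
  | zero => exact ⟨.inr (.inl a), rfl, rho_zero a⟩
  | succ k ih =>
    obtain ⟨p, h1, h2⟩ := ih (by omega)
    obtain ⟨τ, hτ⟩ := hl.surj a k hk
    refine ⟨.inl τ, by simp [hp, hτ], fun τ' => ?_⟩
    rw [rho_succ (sh_slice hl hz),
      show rho (al0 lab + z) (a, k) = Pi.single τ 1 from
        funext fun i => (h2 i).trans (row_low hl hz (hτ ▸ h1) i), Matrix.single_one_vecMul]
    rfl

theorem mx_one (hl : IsLab d lab) (hz : ∀ p q, ¬ shS lab ka p q → z p q = 0) :
    Mx (al0 lab + z) lab = 1 := by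
  ext τ τ'
  obtain ⟨p, h1, h2⟩ := rho_row hl hz (lab τ).1 (lab τ).2 (hl.lt τ).le
  refine ((h2 τ').trans (row_low hl hz h1 τ')).trans ?_
  simp [Matrix.one_apply, Pi.single_apply, eq_comm]

theorem row_key (hl : IsLab d lab) (hz : ∀ p q, ¬ shS lab ka p q → z p q = 0)
    (hN : ∀ p q, isNe d lab p q → z p q = 0) {p : Nb Q w v D} {x : Bas Q v × ℕ}
    (h : hp lab p = some x) (hx : x.2 ≤ d x.1) {τ : Bas Q D}
    (hn : (al0 (w := w) lab + z :) p (.inl τ) ≠ 0) : key (lab τ) ≤ key x := by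
  rcases hx.lt_or_eq with hx | hx
  · obtain ⟨τ', e⟩ := hl.surj _ _ hx
    rw [row_low hl hz (τ := τ') (by rw [e]; exact h)] at hn
    obtain rfl : τ = τ' := by_contra fun hne => hn (Pi.single_eq_of_ne hne _)
    rw [e]
  · have h' : hp lab p = some (x.1, d x.1) := by rw [← hx]; exact h
    obtain ⟨τ', e, h1, -⟩ := sh_slice hl hz _ _ hn
    cases e
    rw [row_top hl h'] at hn
    refine not_lt.1 fun hlt => hn (hN _ _ ⟨x.1, τ, h', rfl, (hp_vx hl h).1.symm.trans h1, ?_⟩)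
    rw [← hx]
    exact key_lt.1 hlt

theorem rho_key (hl : IsLab d lab) (hz : ∀ p q, ¬ shS lab ka p q → z p q = 0)
    (hN : ∀ p q, isNe d lab p q → z p q = 0) (a : Bas Q v) (k : ℕ) :
    ∀ τ, rho (al0 lab + z) (a, k) τ ≠ 0 → key (lab τ) ≤ key (a, k) := by
  induction k with
  | zero =>
    intro τ hτ
    rw [rho_zero] at hτ
    exact row_key hl hz hN (p := .inr (.inl a)) rfl (Nat.zero_le _) hτ
  | succ k ih =>
    intro τ' hτ
    obtain ⟨τ, h1, h2⟩ := rho_step (sh_slice hl hz) hτ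
    have h3 := row_key hl hz hN (p := .inl τ) rfl (hl.lt τ) h2
    have h4 := ih τ h1
    rw [key_succ] at h3 ⊢
    exact h3.trans (Nat.add_le_add_right h4 _)

theorem eq_of_min (hl : IsLab d lab) (hz : ∀ p q, ¬ shS lab ka p q → z p q = 0)
    (hN : ∀ p q, isNe d lab p q → z p q = 0) {d' : Bas Q v → ℕ} {lab' : Bas Q D → Bas Q v × ℕ}
    (hl' : IsLab d' lab') (hs : score d' ≤ score d) (hm : (Mx (al0 lab + z) lab').det ≠ 0) :
    d = d' := by
  obtain ⟨σ, hσ⟩ := leibniz hm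
  have h1 : ∀ τ, key (lab τ) ≤ key (lab' (σ τ)) := fun τ => rho_key hl hz hN _ _ τ (hσ τ)
  rw [score_lab hl, score_lab hl', ← Equiv.sum_comp σ] at hs
  have h2 := (sum_eq_sum_iff_of_le fun τ _ => h1 τ).1
    (le_antisymm (sum_le_sum (s := univ) fun τ _ => h1 τ) hs)
  exact lab_eq hl hl' σ fun τ => key_inj
    ((hl.vert τ).trans (rho_vert (sh_slice hl hz) _ _ τ (hσ τ)).symm) (h2 τ (mem_univ _))

theorem exch (hl : IsLab d lab) (hz : ∀ p q, ¬ shS lab ka p q → z p q = 0) {p q : Nb Q w v D}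
    (hN : isNe d lab p q) (hn : z p q ≠ 0) : ∃ B : Bas Q D → Bas Q v × ℕ,
      (Mx (al0 lab + z) B).det ≠ 0 ∧ ∑ τ, key (B τ) < score d := by
  obtain ⟨a, τ, h1, rfl, -, h2⟩ := hN
  obtain ⟨p', h3, h4⟩ := rho_row hl hz a (d a) le_rfl
  obtain rfl := hp_inj hl h1 h3
  refine ⟨Function.update lab τ (a, d a), ?_, ?_⟩
  · rw [det_update lab (rho (al0 lab + z) (a, d a)) _ (by rw [mx_one hl hz, Matrix.vecMul_one]),
      mx_one hl hz, Matrix.det_one, mul_one, h4, row_top hl h1]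
    exact hn
  · rw [score_lab hl]
    exact sum_update lab _ τ (key_lt.2 h2)

end slice

end ObsL

open ObsL in
theorem obs : ObsStmt := by
  intro Q w v D
  refine ⟨fun d hd => exists_lab hd, fun lab hl => ⟨fun α hα => ?_, fun d hd z hz => ⟨?_, ?_⟩⟩⟩
  · have hs : Sh α := fun p q hn => sh_of_shape (by_contra fun h => hn (hα p q h))
    refine ⟨fun h => ?_, fun ⟨d, _, h⟩ s z hz e => zero_of_minor h hz e⟩
    obtain ⟨B, hB⟩ := exists_basis (ker_bot hs h)
    obtain ⟨d, hd, -, hm⟩ := exists_min hs hl hB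
    exact ⟨d, hd, hm⟩
  · rintro ⟨d', hd', hne, hs, hm⟩
    by_contra hn
    push Not at hn
    exact hne (eq_of_min (hl d hd) hz hn (hl d' hd') hs hm).symm
  · rintro ⟨p, q, hN, hn⟩
    obtain ⟨B, hB, hs⟩ := exch (hl d hd) hz hN hn
    obtain ⟨d', hd', hs', hm⟩ := exists_min (sh_slice (hl d hd) hz) hl hB
    exact ⟨d', hd', hs'.trans_lt hs, hm⟩

end Pool.Agent.MP_8be872_ag.H71
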