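import Pool.Agent.MP_8be872_ag.H38.Spec

/-! Partial fractions and reindexing lemmas for the duality transformation. -/

namespace Pool.Agent.MP_8be872_ag.H71

open Finset Pool.Agent.MP_8be872_ag.H38

variable {F ι : Type} [Field F] [DecidableEq ι]

theorem kappa_mul {t p p' : F} (h : t ≠ p) (h' : t ≠ p') (hp : p ≠ p') :
    t / (t - p) * (t / (t - p')) = p / (p - p') * (t / (t - p)) + p' / (p' - p) * (t / (t - p')) := by
  have h1 : t - p ≠ 0 := sub_ne_zero.mpr h
  have h2 : t - p' ≠ 0 := sub_ne_zero.mpr h'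
  have h3 : p - p' ≠ 0 := sub_ne_zero.mpr hp
  have h4 : p' - p ≠ 0 := sub_ne_zero.mpr hp.symm
  field_simp
  ring

theorem prod_pf {κ : Type} (f : κ → F → F) (p c m : κ → F) (S : Finset κ)
    (hp0 : ∀ i ∈ S, p i ≠ 0) (hinj : ∀ i ∈ S, ∀ j ∈ S, p i = p j → i = j)
    (h1 : ∀ i ∈ S, f i (p i) = 1)
    (hf : ∀ i ∈ S, ∀ t, t ≠ 0 → t ≠ p i → f i t = c i + m i * (t / (t - p i))) :
    ∀ t, t ≠ 0 → (∀ i ∈ S, t ≠ p i) →
      ∏ i ∈ S, f i t = ∏ i ∈ S, c i + ∑ i ∈ S, m i * (∏ j ∈ S, f j (p i)) * (t / (t - p i)) := by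
  classical
  induction S using Finset.induction_on with
  | empty => intro t _ _; simp
  | insert i0 S hi0 ih =>
    intro t ht htp
    have ih' := ih (fun i hi => hp0 i (mem_insert_of_mem hi))
      (fun i hi j hj => hinj i (mem_insert_of_mem hi) j (mem_insert_of_mem hj))
      (fun i hi => h1 i (mem_insert_of_mem hi)) (fun i hi => hf i (mem_insert_of_mem hi))
    have hne : ∀ i ∈ S, p i0 ≠ p i := fun i hi h =>
      hi0 (hinj i0 (mem_insert_self _ _) i (mem_insert_of_mem hi) h ▸ hi)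
    have e0 := ih' (p i0) (hp0 i0 (mem_insert_self _ _)) hne
    have et := ih' t ht (fun i hi => htp i (mem_insert_of_mem hi))
    rw [prod_insert hi0, prod_insert hi0, sum_insert hi0, prod_insert hi0,
      h1 i0 (mem_insert_self _ _), e0, et,
      hf i0 (mem_insert_self _ _) t ht (htp i0 (mem_insert_self _ _))]
    have : ∑ i ∈ S, m i * (∏ j ∈ insert i0 S, f j (p i)) * (t / (t - p i)) =
        ∑ i ∈ S, ((c i0 + m i0 * (t / (t - p i0))) * (m i * (∏ j ∈ S, f j (p i)) * (t / (t - p i)))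
          - m i0 * (m i * (∏ j ∈ S, f j (p i)) * (p i0 / (p i0 - p i))) * (t / (t - p i0))) := by
      refine sum_congr rfl fun i hi => ?_
      rw [prod_insert hi0, hf i0 (mem_insert_self _ _) (p i) (hp0 i (mem_insert_of_mem hi))
        (hne i hi).symm]
      have k := kappa_mul (htp i0 (mem_insert_self _ _)) (htp i (mem_insert_of_mem hi)) (hne i hi)
      linear_combination (-(m i0 * m i * ∏ j ∈ S, f j (p i))) * k
    rw [this, sum_sub_distrib, ← mul_sum, ← sum_mul, ← mul_sum]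
    ring

theorem ee_one (s : F) : ee s 1 = 1 := by simp [ee]

theorem ee_up (s : F) {p t : F} (hp : p ≠ 0) (htp : t ≠ p) :
    ee s (t / p) = 1 + (-(1 - s)) * (t / (t - p)) := by
  have h1 : t / p ≠ 1 := fun h => htp ((div_eq_one_iff_eq hp).mp h)
  have h2 : t - p ≠ 0 := sub_ne_zero.mpr htp
  have h3 : p - t ≠ 0 := sub_ne_zero.mpr htp.symm
  rw [ee, if_neg h1]
  have : (1 - t / p) = (p - t) / p := by field_simp
  rw [this]
  field_simp
  ring

theorem ee_down (s : F) {p t : F} (ht : t ≠ 0) (htp : t ≠ p) :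
    ee s (p / t) = s + (1 - s) * (t / (t - p)) := by
  have h1 : p / t ≠ 1 := fun h => htp ((div_eq_one_iff_eq ht).mp h).symm
  have h2 : t - p ≠ 0 := sub_ne_zero.mpr htp
  rw [ee, if_neg h1]
  have : (1 - p / t) = (t - p) / t := by field_simp
  rw [this]
  field_simp
  ring

/-- one family of poles -/
theorem pf1 {α : Type} (s : F) (S : Finset α) (p : α → F) (hp0 : ∀ i ∈ S, p i ≠ 0)
    (hinj : ∀ i ∈ S, ∀ j ∈ S, p i = p j → i = j) {t : F} (ht : t ≠ 0) (htp : ∀ i ∈ S, t ≠ p i) :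
    ∏ i ∈ S, ee s (t / p i) =
      1 - (1 - s) * ∑ i ∈ S, (∏ j ∈ S, ee s (p i / p j)) * (t / (t - p i)) := by
  have := prod_pf (fun i t => ee s (t / p i)) p (fun _ => 1) (fun _ => -(1 - s)) S hp0 hinj
    (fun i hi => by simp only [div_self (hp0 i hi), ee_one])
    (fun i hi t _ h => ee_up s (hp0 i hi) h) t ht htp
  rw [this, prod_const_one, mul_sum, sub_eq_add_neg _ (Finset.sum _ _), ← sum_neg_distrib]
  congr 1
  exact sum_congr rfl fun i _ => by ring

/-- three families of poles -/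
theorem pf3 {α β γ : Type} (s : F) (S1 : Finset α) (S2 : Finset β) (S3 : Finset γ)
    (p1 : α → F) (p2 : β → F) (p3 : γ → F)
    (z1 : ∀ i ∈ S1, p1 i ≠ 0) (z2 : ∀ i ∈ S2, p2 i ≠ 0) (z3 : ∀ i ∈ S3, p3 i ≠ 0)
    (i1 : ∀ i ∈ S1, ∀ j ∈ S1, p1 i = p1 j → i = j) (i2 : ∀ i ∈ S2, ∀ j ∈ S2, p2 i = p2 j → i = j)
    (i3 : ∀ i ∈ S3, ∀ j ∈ S3, p3 i = p3 j → i = j)
    (n12 : ∀ i ∈ S1, ∀ j ∈ S2, p1 i ≠ p2 j) (n13 : ∀ i ∈ S1, ∀ j ∈ S3, p1 i ≠ p3 j)
    (n23 : ∀ i ∈ S2, ∀ j ∈ S3, p2 i ≠ p3 j) (Φ : F → F)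
    (hΦ : ∀ t, Φ t = (∏ i ∈ S1, ee s (t / p1 i)) * (∏ i ∈ S2, ee s (p2 i / t)) *
      ∏ i ∈ S3, ee s (t / p3 i))
    {t : F} (ht : t ≠ 0) (t1 : ∀ i ∈ S1, t ≠ p1 i) (t2 : ∀ i ∈ S2, t ≠ p2 i)
    (t3 : ∀ i ∈ S3, t ≠ p3 i) :
    Φ t = s ^ S2.card - (1 - s) * ∑ i ∈ S1, Φ (p1 i) * (t / (t - p1 i))
      + (1 - s) * ∑ i ∈ S2, Φ (p2 i) * (t / (t - p2 i))
      - (1 - s) * ∑ i ∈ S3, Φ (p3 i) * (t / (t - p3 i)) := by
  have key := prod_pf (κ := α ⊕ β ⊕ γ)
    (Sum.elim (fun i t => ee s (t / p1 i)) (Sum.elim (fun i t => ee s (p2 i / t))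
      (fun i t => ee s (t / p3 i))))
    (Sum.elim p1 (Sum.elim p2 p3)) (Sum.elim (fun _ => 1) (Sum.elim (fun _ => s) (fun _ => 1)))
    (Sum.elim (fun _ => -(1 - s)) (Sum.elim (fun _ => (1 - s)) (fun _ => -(1 - s))))
    (S1.disjSum (S2.disjSum S3)) ?_ ?_ ?_ ?_ t ht ?_
  · simp only [prod_disjSum, sum_disjSum, Sum.elim_inl, Sum.elim_inr, prod_const_one,
      prod_const, one_mul, mul_one] at key
    simp only [hΦ, mul_sum]
    rw [mul_assoc, key]
    have a1 : ∀ a b c d : F, -(1 - s) * (a * (b * c)) * d = -((1 - s) * (a * b * c * d)) :=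
      fun a b c d => by ring
    have a2 : ∀ a b c d : F, (1 - s) * (a * (b * c)) * d = ((1 - s) * (a * b * c * d)) :=
      fun a b c d => by ring
    simp only [a1, a2, sum_neg_distrib]
    ring
  · rintro (i | i | i) hi <;> simp only [inl_mem_disjSum, inr_mem_disjSum] at hi
    exacts [z1 i hi, z2 i hi, z3 i hi]
  · rintro (i | i | i) hi (j | j | j) hj h <;>
      simp only [inl_mem_disjSum, inr_mem_disjSum, Sum.elim_inl, Sum.elim_inr] at hi hj h
    · rw [i1 i hi j hj h]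
    · exact absurd h (n12 i hi j hj)
    · exact absurd h (n13 i hi j hj)
    · exact absurd h.symm (n12 j hj i hi)
    · rw [i2 i hi j hj h]
    · exact absurd h (n23 i hi j hj)
    · exact absurd h.symm (n13 j hj i hi)
    · exact absurd h.symm (n23 j hj i hi)
    · rw [i3 i hi j hj h]
  · rintro (i | i | i) hi <;>
      simp only [inl_mem_disjSum, inr_mem_disjSum, Sum.elim_inl, Sum.elim_inr] at hi ⊢
    · rw [div_self (z1 i hi), ee_one]
    · rw [div_self (z2 i hi), ee_one]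
    · rw [div_self (z3 i hi), ee_one]
  · rintro (i | i | i) hi u hu h <;>
      simp only [inl_mem_disjSum, inr_mem_disjSum, Sum.elim_inl, Sum.elim_inr] at hi h ⊢
    · exact ee_up s (z1 i hi) h
    · exact ee_down s hu h
    · exact ee_up s (z3 i hi) h
  · rintro (i | i | i) hi <;> simp only [inl_mem_disjSum, inr_mem_disjSum] at hi
    exacts [t1 i hi, t2 i hi, t3 i hi]

/-- removing `j` boxes at the vertex `a` -/
theorem sum_ge (I : Finset ι) {a : ι} (ha : a ∈ I) (G : (ι → ℕ) → F) (j k : ℕ) :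
    ∑ γ ∈ piAntidiag I k, (if j ≤ γ a then G γ else 0) =
      if j ≤ k then ∑ β ∈ piAntidiag I (k - j), G (β + Pi.single a j) else 0 := by
  split_ifs with hjk
  · rw [← sum_filter]
    symm
    refine sum_bij' (fun β _ => β + Pi.single a j) (fun γ _ => γ - Pi.single a j) ?_ ?_ ?_ ?_ ?_
    · intro β hβ
      rw [mem_piAntidiag] at hβ
      simp only [mem_filter, mem_piAntidiag, Pi.add_apply, Pi.single_eq_same, le_add_iff_nonneg_left,
        zero_le, and_true]
      refine ⟨?_, fun i hi => ?_⟩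
      · rw [sum_add_distrib, hβ.1, sum_pi_single' a j I, if_pos ha]
        omega
      · by_cases hia : i = a
        · exact hia ▸ ha
        · rw [Pi.single_eq_of_ne hia, add_zero] at hi
          exact hβ.2 i hi
    · intro γ hγ
      simp only [mem_filter, mem_piAntidiag] at hγ
      rw [mem_piAntidiag]
      refine ⟨?_, fun i hi => hγ.1.2 i fun h => hi (by simp [h])⟩
      have h1 : ∑ i ∈ I, (γ - Pi.single a j : ι → ℕ) i + ∑ i ∈ I, (Pi.single a j : ι → ℕ) i
          = ∑ i ∈ I, γ i := by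
        rw [← sum_add_distrib]
        refine sum_congr rfl fun i _ => ?_
        by_cases hia : i = a
        · subst hia
          simp only [Pi.sub_apply, Pi.single_eq_same]
          omega
        · simp [Pi.single_eq_of_ne hia]
      rw [sum_pi_single' a j I, if_pos ha] at h1
      have h2 : ∑ i ∈ I, γ i = k := hγ.1.1
      change ∑ i ∈ I, (γ - Pi.single a j : ι → ℕ) i = k - j
      omega
    · intro β _
      ext i
      simp
    · intro γ hγ
      simp only [mem_filter] at hγ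
      ext i
      by_cases hia : i = a
      · subst hia
        simp only [Pi.add_apply, Pi.sub_apply, Pi.single_eq_same]
        omega
      · simp [Pi.single_eq_of_ne hia]
    · intro β _
      rfl
  · refine sum_eq_zero fun γ hγ => if_neg fun h => hjk ?_
    rw [mem_piAntidiag] at hγ
    rw [← hγ.1]
    exact h.trans (single_le_sum (f := γ) (fun _ _ => Nat.zero_le _) ha)

theorem sum_lt (I : Finset ι) {a : ι} (ha : a ∈ I) (G : ℕ → (ι → ℕ) → F) {k N : ℕ} (hk : k ≤ N) :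
    ∑ γ ∈ piAntidiag I k, ∑ l ∈ range (γ a), G l γ =
      ∑ l ∈ range N, if l + 1 ≤ k then
        ∑ β ∈ piAntidiag I (k - (l + 1)), G l (β + Pi.single a (l + 1)) else 0 := by
  have : ∀ γ ∈ piAntidiag I k, ∑ l ∈ range (γ a), G l γ =
      ∑ l ∈ range N, if l + 1 ≤ γ a then G l γ else 0 := by
    intro γ hγ
    rw [mem_piAntidiag] at hγ
    have h : γ a ≤ N := by
      refine le_trans ?_ hk
      rw [← hγ.1]
      exact single_le_sum (f := γ) (fun _ _ => Nat.zero_le _) ha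
    rw [← sum_filter]
    refine sum_congr ?_ fun _ _ => rfl
    ext l
    simp only [mem_range, mem_filter]
    omega
  rw [sum_congr rfl this, sum_comm]
  exact sum_congr rfl fun l _ => sum_ge I ha (G l) (l + 1) k

theorem sum_lt' (I : Finset ι) {a : ι} (ha : a ∈ I) (G : ℕ → (ι → ℕ) → F) (k : ℕ) :
    ∑ γ ∈ piAntidiag I k, ∑ l ∈ range (γ a), G l γ =
      ∑ l ∈ range k, if l + 1 ≤ k then
        ∑ β ∈ piAntidiag I (k - (l + 1)), G (β a) (β + Pi.single a (l + 1)) else 0 := by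
  have := sum_lt I ha (fun l γ => G (γ a - 1 - l) γ) (le_refl k)
  simp only [Pi.add_apply, Pi.single_eq_same] at this
  have e : ∀ x l : ℕ, x + (l + 1) - 1 - l = x := fun x l => by omega
  simp only [e] at this
  rw [← this]
  exact sum_congr rfl fun γ _ => (sum_range_reflect (fun l => G l γ) (γ a)).symm

theorem sum_insert_anti (I : Finset ι) {a : ι} (ha : a ∉ I) (G : (ι → ℕ) → F) (H : ℕ → F)
    (hG : ∀ γ γ' : ι → ℕ, (∀ i ∈ I, γ i = γ' i) → G γ = G γ') (k : ℕ) :
    ∑ γ ∈ piAntidiag (insert a I) k, G γ * H (γ a) =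
      ∑ x ∈ antidiagonal k, (∑ γ ∈ piAntidiag I x.1, G γ) * H x.2 := by
  rw [← cons_eq_insert a I ha, piAntidiag_cons ha, sum_disjiUnion, ← Nat.sum_antidiagonal_swap]
  refine sum_congr rfl fun x _ => ?_
  rw [sum_map, sum_mul]
  refine sum_congr rfl fun γ hγ => ?_
  rw [mem_piAntidiag] at hγ
  have h0 : γ a = 0 := by
    by_contra h
    exact ha (hγ.2 a h)
  congr 1
  · refine hG _ _ fun i hi => ?_
    have : i ≠ a := fun h => ha (h ▸ hi)
    simp [this]
  · simp [h0]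

end Pool.Agent.MP_8be872_ag.H71
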