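import Pool.Agent.MP_8be872_ag.H71.DualA

/-! Identities for single terms of the duality transformation. -/

namespace Pool.Agent.MP_8be872_ag.H71

open Finset Function Pool.Agent.MP_8be872_ag.H38

variable {F ι : Type} [Field F] [DecidableEq ι]

omit [DecidableEq ι] in
theorem term_congr (q s : F) (I J : Finset ι) {X X' Z Z' : ι → F} {γ γ' : ι → ℕ}
    (hX : ∀ a ∈ I, X a = X' a) (hZ : ∀ c ∈ J, Z c = Z' c) (hγ : ∀ a ∈ I, γ a = γ' a) :
    term q s I J X Z γ = term q s I J X' Z' γ' := by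
  unfold term
  congr 1
  · refine prod_congr rfl fun a ha => prod_congr rfl fun a' ha' => ?_
    rw [hX a ha, hX a' ha', hγ a ha, hγ a' ha']
  · refine prod_congr rfl fun a ha => prod_congr rfl fun c hc => ?_
    rw [hX a ha, hZ c hc, hγ a ha]

theorem termA (q s : F) (I J : Finset ι) {c0 : ι} (hc : c0 ∉ J) (X Z : ι → F) (t : F) (γ : ι → ℕ) :
    term q s I (insert c0 J) X (update Z c0 t) γ =
      term q s I J X Z γ * ∏ a ∈ I, ∏ l ∈ range (γ a), ee s (X a * t * q ^ (l + 1)) := by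
  unfold term
  rw [mul_assoc, ← prod_mul_distrib (s := I)
    (f := fun a => ∏ c ∈ J, ∏ l ∈ range (γ a), ee s (X a * Z c * q ^ (l + 1)))]
  congr 1
  refine prod_congr rfl fun a _ => ?_
  rw [prod_insert hc, update_self, mul_comm]
  congr 1
  refine prod_congr rfl fun c hc' => ?_
  rw [update_of_ne (ne_of_mem_of_not_mem hc' hc)]

theorem termB {q : F} (s : F) (hq : q ≠ 0) (I J : Finset ι) {a0 : ι} (ha : a0 ∉ I) (X Z : ι → F)
    {t : F} (ht : t ≠ 0) (γ : ι → ℕ) :
    term q s (insert a0 I) J (update X a0 t) Z γ =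
      term q s I J X Z γ * (∏ l ∈ range (γ a0), ee s (q ^ (l + 1))) *
        ((∏ a ∈ I, ∏ l ∈ range (γ a), ee s (t * q ^ γ a0 / (X a * q ^ l))) *
          (∏ a ∈ I, ∏ l ∈ range (γ a0), ee s (X a * q ^ γ a / (t * q ^ l))) *
          ∏ c ∈ J, ∏ l ∈ range (γ a0), ee s (t * Z c * q ^ (l + 1))) := by
  have hu : ∀ a ∈ I, update X a0 t a = X a := fun a h =>
    update_of_ne (ne_of_mem_of_not_mem h ha) _ _
  have e0 : ∏ l ∈ range (γ a0), ee s (t * q ^ γ a0 / (t * q ^ l)) =
      ∏ l ∈ range (γ a0), ee s (q ^ (l + 1)) := by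
    rw [← prod_range_reflect]
    refine prod_congr rfl fun l hl => ?_
    rw [mem_range] at hl
    congr 1
    have : γ a0 = (l + 1) + (γ a0 - 1 - l) := by omega
    rw [mul_div_mul_left _ _ ht, div_eq_iff (pow_ne_zero _ hq), ← pow_add, ← this]
  have e1 : ∏ a ∈ I, ∏ l ∈ range (γ a), ee s (t * q ^ γ a0 / (update X a0 t a * q ^ l)) =
      ∏ a ∈ I, ∏ l ∈ range (γ a), ee s (t * q ^ γ a0 / (X a * q ^ l)) :=
    prod_congr rfl fun a h => by rw [hu a h]
  have e2 : ∏ a ∈ I, ((∏ l ∈ range (γ a0), ee s (update X a0 t a * q ^ γ a / (t * q ^ l))) *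
      ∏ a' ∈ I, ∏ l ∈ range (γ a'), ee s (update X a0 t a * q ^ γ a / (update X a0 t a' * q ^ l))) =
      (∏ a ∈ I, ∏ l ∈ range (γ a0), ee s (X a * q ^ γ a / (t * q ^ l))) *
      ∏ a ∈ I, ∏ a' ∈ I, ∏ l ∈ range (γ a'), ee s (X a * q ^ γ a / (X a' * q ^ l)) := by
    rw [← prod_mul_distrib]
    refine prod_congr rfl fun a h => ?_
    rw [hu a h]
    congr 1
    exact prod_congr rfl fun a' h' => by rw [hu a' h']
  have e3 : ∏ a ∈ I, ∏ c ∈ J, ∏ l ∈ range (γ a), ee s (update X a0 t a * Z c * q ^ (l + 1)) =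
      ∏ a ∈ I, ∏ c ∈ J, ∏ l ∈ range (γ a), ee s (X a * Z c * q ^ (l + 1)) :=
    prod_congr rfl fun a h => by rw [hu a h]
  unfold term
  simp only [prod_insert ha, update_self]
  rw [e0, e1, e2, e3]
  ring

/-- the one-variable function whose product over the boxes is a term -/
noncomputable def hh (q s : F) (I J : Finset ι) (E Z : ι → F) (u : F) : F :=
  (∏ a ∈ I, ee s (E a / u)) * ∏ c ∈ J, ee s (u * Z c * q)

omit [DecidableEq ι] in
theorem term_eq (q s : F) (I J : Finset ι) (X Z : ι → F) (γ : ι → ℕ) :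
    term q s I J X Z γ =
      ∏ a ∈ I, ∏ l ∈ range (γ a), hh q s I J (fun a => X a * q ^ γ a) Z (X a * q ^ l) := by
  unfold term hh
  simp only [prod_mul_distrib]
  congr 1
  · rw [prod_comm]
    exact prod_congr rfl fun a _ => prod_comm
  · refine prod_congr rfl fun a _ => ?_
    rw [prod_comm]
    refine prod_congr rfl fun l _ => prod_congr rfl fun c _ => ?_
    congr 1
    ring

theorem prod_add_single (q : F) (I : Finset ι) {a : ι} (ha : a ∈ I) (X : ι → F) (β : ι → ℕ)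
    (d : ℕ) (H : F → F) :
    ∏ a' ∈ I, ∏ l ∈ range ((β + Pi.single a d : ι → ℕ) a'), H (X a' * q ^ l) =
      (∏ a' ∈ I, ∏ l ∈ range (β a'), H (X a' * q ^ l)) *
        ∏ l ∈ range d, H (X a * q ^ β a * q ^ l) := by
  rw [← mul_prod_erase I _ ha, ← mul_prod_erase I _ ha]
  simp only [Pi.add_apply, Pi.single_eq_same]
  have e1 : ∏ x ∈ I.erase a, ∏ l ∈ range (β x + (Pi.single a d : ι → ℕ) x), H (X x * q ^ l) =
      ∏ x ∈ I.erase a, ∏ l ∈ range (β x), H (X x * q ^ l) :=
    prod_congr rfl fun a' h => by rw [Pi.single_eq_of_ne (ne_of_mem_erase h), add_zero]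
  have e2 : ∏ l ∈ range d, H (X a * q ^ (β a + l)) = ∏ l ∈ range d, H (X a * q ^ β a * q ^ l) :=
    prod_congr rfl fun l _ => by rw [pow_add, mul_assoc]
  rw [prod_range_add, e1, e2, mul_right_comm]

theorem prod_add_single' (q : F) (I : Finset ι) {a : ι} (ha : a ∈ I) (X : ι → F) (β : ι → ℕ)
    (d : ℕ) (H : F → F) :
    ∏ a' ∈ I, ∏ l ∈ range ((β + Pi.single a d : ι → ℕ) a'), H (X a' * q ^ l) =
      (∏ a' ∈ I, ∏ l ∈ range (β a'), H (update X a (X a * q ^ d) a' * q ^ l)) *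
        ∏ l ∈ range d, H (X a * q ^ l) := by
  rw [← mul_prod_erase I _ ha, ← mul_prod_erase I _ ha]
  simp only [Pi.add_apply, Pi.single_eq_same, update_self]
  have e1 : ∏ x ∈ I.erase a, ∏ l ∈ range (β x + (Pi.single a d : ι → ℕ) x), H (X x * q ^ l) =
      ∏ x ∈ I.erase a, ∏ l ∈ range (β x), H (update X a (X a * q ^ d) x * q ^ l) :=
    prod_congr rfl fun a' h => by
      rw [Pi.single_eq_of_ne (ne_of_mem_erase h), add_zero, update_of_ne (ne_of_mem_erase h)]
  have e2 : ∏ l ∈ range (β a), H (X a * q ^ (d + l)) =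
      ∏ l ∈ range (β a), H (X a * q ^ d * q ^ l) :=
    prod_congr rfl fun l _ => by rw [pow_add, mul_assoc]
  rw [add_comm (β a) d, prod_range_add, e1, e2]
  ring

theorem prod_end (q : F) (I : Finset ι) {a : ι} (ha : a ∈ I) (X : ι → F) (β : ι → ℕ)
    (d : ℕ) (G : F → F) :
    ∏ a' ∈ I, G (X a' * q ^ (β + Pi.single a d : ι → ℕ) a') =
      G (X a * q ^ β a * q ^ d) * ∏ a' ∈ I.erase a, G (X a' * q ^ β a') := by
  rw [← mul_prod_erase I _ ha]
  simp only [Pi.add_apply, Pi.single_eq_same]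
  congr 1
  · rw [pow_add, mul_assoc]
  · refine prod_congr rfl fun a' h => ?_
    rw [Pi.single_eq_of_ne (ne_of_mem_erase h), add_zero]

/-- the apparent poles cancel -/
theorem term_swap (q s : F) (I J : Finset ι) {a b : ι} (ha : a ∈ I) (hb : b ∈ I) (X Z : ι → F)
    (β : ι → ℕ) (d : ℕ) (h : X a * q ^ β a = X b * q ^ β b) :
    term q s I J X Z (β + Pi.single a d) = term q s I J X Z (β + Pi.single b d) := by
  by_cases hab : a = b
  · rw [hab]
  have hh' : hh q s I J (fun a' => X a' * q ^ (β + Pi.single a d : ι → ℕ) a') Z =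
      hh q s I J (fun a' => X a' * q ^ (β + Pi.single b d : ι → ℕ) a') Z := by
    funext u
    unfold hh
    congr 1
    rw [prod_end q I ha X β d (fun w => ee s (w / u)), prod_end q I hb X β d (fun w => ee s (w / u)),
      ← mul_prod_erase (I.erase a) _ (mem_erase.mpr ⟨Ne.symm hab, hb⟩),
      ← mul_prod_erase (I.erase b) _ (mem_erase.mpr ⟨hab, ha⟩), erase_right_comm, h]
  rw [term_eq, term_eq, hh', prod_add_single q I ha, prod_add_single q I hb, h]

/-- the constant of the shift lemma -/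
noncomputable def cst (q s : F) (I J : Finset ι) (X Z : ι → F) (a0 c0 : ι) (j : ℕ) : F :=
  (∏ a ∈ I, ∏ l ∈ range j, ee s (update X a0 (X a0 * q ^ j) a * Z c0 * q ^ (l + 1))) *
    ∏ c ∈ J, ∏ l ∈ range j, ee s (X a0 * Z c * q ^ (l + 1))

theorem cst_symm (q s : F) (I J : Finset ι) (X Z : ι → F) {a0 c0 : ι} (ha : a0 ∈ I) (hc : c0 ∈ J)
    (j : ℕ) : cst q s J I Z X c0 a0 j = cst q s I J X Z a0 c0 j := by
  unfold cst
  rw [← mul_prod_erase I _ ha, ← mul_prod_erase I _ ha, ← mul_prod_erase J _ hc,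
    ← mul_prod_erase J _ hc]
  simp only [update_self]
  have e1 : ∏ c ∈ J.erase c0, ∏ l ∈ range j, ee s (update Z c0 (Z c0 * q ^ j) c * X a0 * q ^ (l + 1))
      = ∏ c ∈ J.erase c0, ∏ l ∈ range j, ee s (X a0 * Z c * q ^ (l + 1)) :=
    prod_congr rfl fun c h => by rw [update_of_ne (ne_of_mem_erase h), mul_comm (Z c)]
  have e2 : ∏ a ∈ I.erase a0, ∏ l ∈ range j, ee s (update X a0 (X a0 * q ^ j) a * Z c0 * q ^ (l + 1))
      = ∏ a ∈ I.erase a0, ∏ l ∈ range j, ee s (Z c0 * X a * q ^ (l + 1)) :=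
    prod_congr rfl fun c h => by rw [update_of_ne (ne_of_mem_erase h), mul_comm (Z c0)]
  have e3 : Z c0 * q ^ j * X a0 = X a0 * q ^ j * Z c0 := by ring
  rw [e1, e2, e3, mul_comm (Z c0) (X a0)]
  ring

theorem term_shift (q s : F) (I J : Finset ι) (X Z : ι → F) {a0 c0 : ι} (ha : a0 ∈ I) (hc : c0 ∈ J)
    (j : ℕ) (h : X a0 * Z c0 * q ^ j = 1) (β : ι → ℕ) :
    term q s I J X Z (β + Pi.single a0 j) = cst q s I J X Z a0 c0 j *
      term q s I J (update X a0 (X a0 * q ^ j)) (update Z c0 (Z c0 * q ^ j)) β := by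
  set X' := update X a0 (X a0 * q ^ j) with hX'
  have hE : (fun a => X a * q ^ (β + Pi.single a0 j : ι → ℕ) a) = fun a => X' a * q ^ β a := by
    funext a
    by_cases haa : a = a0
    · subst haa
      simp only [hX', Pi.add_apply, Pi.single_eq_same, update_self]
      ring
    · simp only [hX', Pi.add_apply, Pi.single_eq_of_ne haa, update_of_ne haa, add_zero]
  have key : ∀ a, (∏ l ∈ range (β a), ee s (X' a * q ^ l * Z c0 * q)) *
      ∏ l ∈ range j, ee s (X' a * q ^ β a / (X a0 * q ^ l)) =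
      (∏ l ∈ range j, ee s (X' a * Z c0 * q ^ (l + 1))) *
        ∏ l ∈ range (β a), ee s (X' a * q ^ l * (Z c0 * q ^ j) * q) := by
    intro a
    have k1 := prod_range_add (fun l => ee s (X' a * Z c0 * q ^ (l + 1))) (β a) j
    have k2 := prod_range_add (fun l => ee s (X' a * Z c0 * q ^ (l + 1))) j (β a)
    rw [add_comm j, k1] at k2
    have e1 : ∏ l ∈ range (β a), ee s (X' a * q ^ l * Z c0 * q) =
        ∏ l ∈ range (β a), ee s (X' a * Z c0 * q ^ (l + 1)) :=
      prod_congr rfl fun l _ => by congr 1; ring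
    have e2 : ∏ l ∈ range (β a), ee s (X' a * q ^ l * (Z c0 * q ^ j) * q) =
        ∏ l ∈ range (β a), ee s (X' a * Z c0 * q ^ (j + l + 1)) :=
      prod_congr rfl fun l _ => by congr 1; ring
    have e3 : ∏ l ∈ range j, ee s (X' a * q ^ β a / (X a0 * q ^ l)) =
        ∏ l ∈ range j, ee s (X' a * Z c0 * q ^ (β a + l + 1)) := by
      rw [← prod_range_reflect]
      refine prod_congr rfl fun l hl => ?_
      rw [mem_range] at hl
      congr 1
      obtain ⟨m, hm⟩ : ∃ m, j = l + 1 + m := ⟨j - 1 - l, by omega⟩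
      have hm' : j - 1 - l = m := by omega
      rw [hm']
      rw [hm] at h
      have hne : X a0 * q ^ m ≠ 0 := by
        intro h0
        have : X a0 * Z c0 * q ^ (l + 1 + m) = (X a0 * q ^ m) * (Z c0 * q ^ (l + 1)) := by ring
        rw [this, h0, zero_mul] at h
        exact zero_ne_one h
      rw [div_eq_iff hne]
      linear_combination (-(X' a * q ^ β a)) * h
    rw [e1, e2, e3, k2]
  have key2 := prod_congr (rfl : I = I) fun a _ => key a
  rw [prod_mul_distrib, prod_mul_distrib] at key2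
  have split : ∀ (W : ι → F) (u : F), hh q s I J (fun a => X' a * q ^ β a) W u =
      (∏ a ∈ I, ee s (X' a * q ^ β a / u)) * (∏ c ∈ J.erase c0, ee s (u * W c * q)) *
        ee s (u * W c0 * q) := by
    intro W u
    unfold hh
    rw [← mul_prod_erase J _ hc]
    ring
  have e4 : ∀ u : F, ∏ c ∈ J.erase c0, ee s (u * update Z c0 (Z c0 * q ^ j) c * q) =
      ∏ c ∈ J.erase c0, ee s (u * Z c * q) := fun u =>
    prod_congr rfl fun c h => by rw [update_of_ne (ne_of_mem_erase h)]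
  have e5 : ∏ l ∈ range j, hh q s I J (fun a => X' a * q ^ β a) Z (X a0 * q ^ l) =
      (∏ a ∈ I, ∏ l ∈ range j, ee s (X' a * q ^ β a / (X a0 * q ^ l))) *
        ∏ c ∈ J, ∏ l ∈ range j, ee s (X a0 * Z c * q ^ (l + 1)) := by
    unfold hh
    rw [prod_mul_distrib]
    congr 1
    · exact prod_comm
    · rw [prod_comm]
      exact prod_congr rfl fun c _ => prod_congr rfl fun l _ => by congr 1; ring
  rw [term_eq, term_eq, hE, prod_add_single' q I ha, e5, cst]
  simp only [split, e4, update_self, prod_mul_distrib, ← hX']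
  linear_combination (∏ c ∈ J, ∏ l ∈ range j, ee s (X a0 * Z c * q ^ (l + 1))) *
    (∏ x ∈ I, ∏ l ∈ range (β x), ∏ a ∈ I, ee s (X' a * q ^ β a / (X' x * q ^ l))) *
    (∏ x ∈ I, ∏ l ∈ range (β x), ∏ c ∈ J.erase c0, ee s (X' x * q ^ l * Z c * q)) * key2

end Pool.Agent.MP_8be872_ag.H71
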