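import Pool.Agent.MP_8be872_ag.H71.DualB

/-! Partial fraction expansions of the two sides of the duality transformation. -/

namespace Pool.Agent.MP_8be872_ag.H71

open Finset Function Pool.Agent.MP_8be872_ag.H38

variable {F ι : Type} [Field F] [DecidableEq ι]

/-- genericity of the parameters -/
structure Gen (q : F) (I J : Finset ι) (X Z : ι → F) : Prop where
  nx : ∀ a ∈ I, X a ≠ 0
  nz : ∀ c ∈ J, Z c ≠ 0
  sx : ∀ a ∈ I, ∀ a' ∈ I, ∀ m n : ℕ, X a * q ^ m = X a' * q ^ n → a = a' ∧ m = n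
  sz : ∀ a ∈ J, ∀ a' ∈ J, ∀ m n : ℕ, Z a * q ^ m = Z a' * q ^ n → a = a' ∧ m = n
  cr : ∀ a ∈ I, ∀ c ∈ J, ∀ m n : ℕ, X a * Z c * q ^ m ≠ q ^ n

omit [DecidableEq ι] in
theorem Gen.symm {q : F} {I J : Finset ι} {X Z : ι → F} (h : Gen q I J X Z) : Gen q J I Z X :=
  ⟨h.nz, h.nx, h.sz, h.sx, fun c hc a ha m n => mul_comm (Z c) (X a) ▸ h.cr a ha c hc m n⟩

theorem Gen.shift {q : F} (hq : q ≠ 0) {I J : Finset ι} {X Z : ι → F} (h : Gen q I J X Z) (a0 : ι)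
    (j : ℕ) : Gen q I J (update X a0 (X a0 * q ^ j)) Z := by
  have e : ∀ a, update X a0 (X a0 * q ^ j) a = X a * q ^ (if a = a0 then j else 0) := by
    intro a
    split_ifs with ha
    · rw [ha, update_self]
    · rw [update_of_ne ha, pow_zero, mul_one]
  refine ⟨fun a ha => ?_, h.nz, fun a ha a' ha' m n hh => ?_, h.sz, fun a ha c hc m n hh => ?_⟩
  · rw [e]
    exact mul_ne_zero (h.nx a ha) (pow_ne_zero _ hq)
  · rw [e, e, mul_assoc, mul_assoc, ← pow_add, ← pow_add] at hh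
    obtain ⟨h1, h2⟩ := h.sx a ha a' ha' _ _ hh
    subst h1
    exact ⟨rfl, by omega⟩
  · rw [e] at hh
    refine h.cr a ha c hc ((if a = a0 then j else 0) + m) n ?_
    rw [← hh]
    ring

theorem termA_pf {q : F} (s : F) (hq : q ≠ 0) {I : Finset ι} (J : Finset ι) {c0 : ι} (hc : c0 ∉ J)
    {X : ι → F} (Z : ι → F) (nx : ∀ a ∈ I, X a ≠ 0)
    (sx : ∀ a ∈ I, ∀ a' ∈ I, ∀ m n : ℕ, X a * q ^ m = X a' * q ^ n → a = a' ∧ m = n) {t : F}
    (ht : t ≠ 0) (htx : ∀ a ∈ I, ∀ l : ℕ, X a * t * q ^ (l + 1) ≠ 1) (γ : ι → ℕ) :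
    term q s I (insert c0 J) X (update Z c0 t) γ = term q s I J X Z γ -
      (1 - s) * ∑ a ∈ I, ∑ l ∈ range (γ a),
        term q s I (insert c0 J) X (update Z c0 (X a * q ^ (l + 1))⁻¹) γ *
          (t / (t - (X a * q ^ (l + 1))⁻¹)) := by
  have e : ∀ u : F, ∏ a ∈ I, ∏ l ∈ range (γ a), ee s (X a * u * q ^ (l + 1)) =
      ∏ i ∈ I.sigma (fun a => range (γ a)), ee s (u / (X i.1 * q ^ (i.2 + 1))⁻¹) := by
    intro u
    rw [prod_sigma']
    refine prod_congr rfl fun i _ => ?_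
    rw [div_inv_eq_mul]
    congr 1
    ring
  have k := pf1 s (I.sigma (fun a => range (γ a))) (fun i => (X i.1 * q ^ (i.2 + 1))⁻¹)
    (fun i hi => inv_ne_zero (mul_ne_zero (nx _ (mem_sigma.mp hi).1) (pow_ne_zero _ hq)))
    (fun i hi j hj h => by
      obtain ⟨h1, h2⟩ := sx _ (mem_sigma.mp hi).1 _ (mem_sigma.mp hj).1 _ _ (inv_injective h)
      exact Sigma.ext h1 (heq_of_eq (by omega))) ht
    (fun i hi h => htx _ (mem_sigma.mp hi).1 i.2 (by
      rw [h, mul_right_comm]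
      exact mul_inv_cancel₀ (mul_ne_zero (nx _ (mem_sigma.mp hi).1) (pow_ne_zero _ hq))))
  simp only [termA q s I J hc, e]
  rw [k, sum_sigma', mul_sub, mul_one, mul_left_comm, mul_sum]
  congr 2
  exact sum_congr rfl fun i _ => by ring

theorem termB_pf {q : F} (s : F) (hq : q ≠ 0) {I J : Finset ι} {a0 : ι} (ha : a0 ∉ I)
    {X Z : ι → F} (g : Gen q I J X Z) {t : F} (ht : t ≠ 0)
    (htx : ∀ a ∈ I, ∀ m n : ℕ, t * q ^ m ≠ X a * q ^ n)
    (htz : ∀ c ∈ J, ∀ l : ℕ, Z c * t * q ^ (l + 1) ≠ 1) (γ : ι → ℕ) :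
    term q s (insert a0 I) J (update X a0 t) Z γ =
      term q s I J X Z γ * ((s ^ I.card) ^ γ a0 * ∏ l ∈ range (γ a0), ee s (q ^ (l + 1)))
      - (1 - s) * ∑ a ∈ I, ∑ l ∈ range (γ a),
        term q s (insert a0 I) J (update X a0 (X a * q ^ l / q ^ γ a0)) Z γ *
          (t / (t - X a * q ^ l / q ^ γ a0))
      + (1 - s) * ∑ a ∈ I, ∑ l ∈ range (γ a0),
        term q s (insert a0 I) J (update X a0 (X a * q ^ γ a / q ^ l)) Z γ *
          (t / (t - X a * q ^ γ a / q ^ l))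
      - (1 - s) * ∑ c ∈ J, ∑ l ∈ range (γ a0),
        term q s (insert a0 I) J (update X a0 (Z c * q ^ (l + 1))⁻¹) Z γ *
          (t / (t - (Z c * q ^ (l + 1))⁻¹)) := by
  have qn : ∀ n : ℕ, q ^ n ≠ 0 := fun n => pow_ne_zero n hq
  have z1 : ∀ a ∈ I, ∀ m n : ℕ, X a * q ^ m / q ^ n ≠ 0 := fun a h m n =>
    div_ne_zero (mul_ne_zero (g.nx a h) (qn m)) (qn n)
  have z3 : ∀ c ∈ J, ∀ m : ℕ, (Z c * q ^ m)⁻¹ ≠ 0 := fun c h m =>
    inv_ne_zero (mul_ne_zero (g.nz c h) (qn m))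
  have c11 : ∀ a ∈ I, ∀ a' ∈ I, ∀ m n m' n' : ℕ, X a * q ^ m / q ^ n = X a' * q ^ m' / q ^ n' →
      a = a' ∧ m + n' = m' + n := by
    intro a h a' h' m n m' n' hh
    rw [div_eq_div_iff (qn n) (qn n'), mul_assoc, mul_assoc, ← pow_add, ← pow_add] at hh
    exact g.sx a h a' h' _ _ hh
  have c13 : ∀ a ∈ I, ∀ c ∈ J, ∀ m n l : ℕ, X a * q ^ m / q ^ n ≠ (Z c * q ^ l)⁻¹ := by
    intro a h c h' m n l hh
    refine g.cr a h c h' (m + l) n ?_
    have := g.nz c h'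
    have := qn n
    have := qn l
    field_simp at hh
    linear_combination hh
  have t1 : ∀ a ∈ I, ∀ m n : ℕ, t ≠ X a * q ^ m / q ^ n := fun a h m n hh =>
    htx a h n m ((eq_div_iff (qn n)).mp hh)
  set Φ : F → F := fun t =>
    (∏ a ∈ I, ∏ l ∈ range (γ a), ee s (t * q ^ γ a0 / (X a * q ^ l))) *
      (∏ a ∈ I, ∏ l ∈ range (γ a0), ee s (X a * q ^ γ a / (t * q ^ l))) *
      ∏ c ∈ J, ∏ l ∈ range (γ a0), ee s (t * Z c * q ^ (l + 1)) with hΦ
  have k := pf3 s (I.sigma (fun a => range (γ a))) (I.sigma (fun _ => range (γ a0)))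
    (J.sigma (fun _ => range (γ a0))) (fun i => X i.1 * q ^ i.2 / q ^ γ a0)
    (fun i => X i.1 * q ^ γ i.1 / q ^ i.2) (fun i => (Z i.1 * q ^ (i.2 + 1))⁻¹)
    (fun i hi => z1 _ (mem_sigma.mp hi).1 _ _) (fun i hi => z1 _ (mem_sigma.mp hi).1 _ _)
    (fun i hi => z3 _ (mem_sigma.mp hi).1 _)
    (fun i hi j hj h => by
      obtain ⟨h1, h2⟩ := c11 _ (mem_sigma.mp hi).1 _ (mem_sigma.mp hj).1 _ _ _ _ h
      exact Sigma.ext h1 (heq_of_eq (by omega)))
    (fun i hi j hj h => by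
      obtain ⟨h1, h2⟩ := c11 _ (mem_sigma.mp hi).1 _ (mem_sigma.mp hj).1 _ _ _ _ h
      rw [h1] at h2
      exact Sigma.ext h1 (heq_of_eq (by omega)))
    (fun i hi j hj h => by
      obtain ⟨h1, h2⟩ := g.sz _ (mem_sigma.mp hi).1 _ (mem_sigma.mp hj).1 _ _ (inv_injective h)
      exact Sigma.ext h1 (heq_of_eq (by omega)))
    (fun i hi j hj h => by
      obtain ⟨h1, h2⟩ := c11 _ (mem_sigma.mp hi).1 _ (mem_sigma.mp hj).1 _ _ _ _ h
      have h3 := mem_range.mp (mem_sigma.mp hi).2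
      have h4 := mem_range.mp (mem_sigma.mp hj).2
      rw [h1] at h3
      omega)
    (fun i hi j hj => c13 _ (mem_sigma.mp hi).1 _ (mem_sigma.mp hj).1 _ _ _)
    (fun i hi j hj => c13 _ (mem_sigma.mp hi).1 _ (mem_sigma.mp hj).1 _ _ _) Φ
    (fun u => by
      simp only [hΦ]
      rw [prod_sigma', prod_sigma', prod_sigma']
      congr 1
      · congr 1
        · exact prod_congr rfl fun i _ => by rw [div_div_eq_mul_div]
        · exact prod_congr rfl fun i _ => by rw [div_div, mul_comm u]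
      · refine prod_congr rfl fun i _ => ?_
        rw [div_inv_eq_mul, mul_assoc]) ht
    (fun i hi => t1 _ (mem_sigma.mp hi).1 _ _) (fun i hi => t1 _ (mem_sigma.mp hi).1 _ _)
    (fun i hi h => htz _ (mem_sigma.mp hi).1 i.2 (by
      rw [h, mul_right_comm]
      exact mul_inv_cancel₀ (mul_ne_zero (g.nz _ (mem_sigma.mp hi).1) (qn _))))
  have tb : ∀ u : F, u ≠ 0 → term q s (insert a0 I) J (update X a0 u) Z γ =
      term q s I J X Z γ * (∏ l ∈ range (γ a0), ee s (q ^ (l + 1))) * Φ u :=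
    fun u hu => termB s hq I J ha X Z hu γ
  have s1 : ∑ a ∈ I, ∑ l ∈ range (γ a),
        term q s (insert a0 I) J (update X a0 (X a * q ^ l / q ^ γ a0)) Z γ *
          (t / (t - X a * q ^ l / q ^ γ a0)) =
      term q s I J X Z γ * (∏ l ∈ range (γ a0), ee s (q ^ (l + 1))) *
        ∑ i ∈ I.sigma (fun a => range (γ a)), Φ (X i.1 * q ^ i.2 / q ^ γ a0) *
          (t / (t - X i.1 * q ^ i.2 / q ^ γ a0)) := by
    rw [sum_sigma', mul_sum]
    exact sum_congr rfl fun i hi => by rw [tb _ (z1 _ (mem_sigma.mp hi).1 _ _), mul_assoc]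
  have s2 : ∑ a ∈ I, ∑ l ∈ range (γ a0),
        term q s (insert a0 I) J (update X a0 (X a * q ^ γ a / q ^ l)) Z γ *
          (t / (t - X a * q ^ γ a / q ^ l)) =
      term q s I J X Z γ * (∏ l ∈ range (γ a0), ee s (q ^ (l + 1))) *
        ∑ i ∈ I.sigma (fun _ => range (γ a0)), Φ (X i.1 * q ^ γ i.1 / q ^ i.2) *
          (t / (t - X i.1 * q ^ γ i.1 / q ^ i.2)) := by
    rw [sum_sigma', mul_sum]
    exact sum_congr rfl fun i hi => by rw [tb _ (z1 _ (mem_sigma.mp hi).1 _ _), mul_assoc]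
  have s3 : ∑ c ∈ J, ∑ l ∈ range (γ a0),
        term q s (insert a0 I) J (update X a0 (Z c * q ^ (l + 1))⁻¹) Z γ *
          (t / (t - (Z c * q ^ (l + 1))⁻¹)) =
      term q s I J X Z γ * (∏ l ∈ range (γ a0), ee s (q ^ (l + 1))) *
        ∑ i ∈ J.sigma (fun _ => range (γ a0)), Φ (Z i.1 * q ^ (i.2 + 1))⁻¹ *
          (t / (t - (Z i.1 * q ^ (i.2 + 1))⁻¹)) := by
    rw [sum_sigma', mul_sum]
    exact sum_congr rfl fun i hi => by rw [tb _ (z3 _ (mem_sigma.mp hi).1 _), mul_assoc]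
  rw [s1, s2, s3, tb t ht, k, card_sigma, sum_const, card_range, smul_eq_mul, pow_mul]
  ring

end Pool.Agent.MP_8be872_ag.H71
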