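import Pool.Agent.MP_8be872_ag.H63.SpecC

/-! Observability indices: labellings and minimal bases. -/

namespace Pool.Agent.MP_8be872_ag.H71.ObsL

open Finset H38 H56 H63
open scoped Matrix

variable {Q : Quiv} {w v D : Fin Q.n → ℕ}

/-- The key of a row. -/
def key (x : Bas Q v × ℕ) : ℕ := x.2 * (∑ i, v i + 1) + x.1.2

theorem idx_lt (a : Bas Q v) : (a.2 : ℕ) < ∑ i, v i + 1 :=
  (a.2.2.trans_le (single_le_sum (f := v) (fun _ _ => Nat.zero_le _) (mem_univ a.1))).trans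
    (Nat.lt_succ_self _)

theorem key_succ (a : Bas Q v) (k : ℕ) : key (a, k + 1) = key (a, k) + (∑ i, v i + 1) := by
  simp only [key]
  ring

theorem key_lt {x y : Bas Q v × ℕ} :
    key x < key y ↔ x.2 < y.2 ∨ (x.2 = y.2 ∧ (x.1.2 : ℕ) < y.1.2) := by
  have h1 := idx_lt x.1
  have h2 := idx_lt y.1
  unfold key
  rcases lt_trichotomy x.2 y.2 with h | h | h
  · have := Nat.mul_le_mul_right (∑ i, v i + 1) (Nat.succ_le_of_lt h)
    rw [Nat.succ_mul] at this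
    omega
  · rw [h]
    omega
  · have := Nat.mul_le_mul_right (∑ i, v i + 1) (Nat.succ_le_of_lt h)
    rw [Nat.succ_mul] at this
    omega

theorem key_inj {x y : Bas Q v × ℕ} (hv : x.1.1 = y.1.1) (h : key x = key y) : x = y := by
  have h1 := (key_lt (x := x) (y := y)).not.1 (by omega)
  have h2 := (key_lt (x := y) (y := x)).not.1 (by omega)
  obtain ⟨⟨i, a⟩, k⟩ := x
  obtain ⟨⟨j, b⟩, l⟩ := y
  dsimp only at hv h1 h2
  subst hv
  have e1 : k = l := by omega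
  have e2 : a = b := Fin.ext (by omega)
  rw [e1, e2]

section lab

variable {d d' : Bas Q v → ℕ} {lab lab' : Bas Q D → Bas Q v × ℕ}

theorem sum_lab (h : IsLab d lab) (f : Bas Q v × ℕ → ℕ) :
    ∑ τ, f (lab τ) = ∑ a, ∑ k ∈ range (d a), f (a, k) := by
  rw [sum_sigma']
  refine sum_bij (fun τ _ => ⟨(lab τ).1, (lab τ).2⟩) (fun τ _ => ?_) (fun τ _ τ' _ e => ?_)
    (fun x hx => ?_) fun _ _ => rfl
  · simpa using h.lt τ
  · simp only [Sigma.mk.injEq, heq_eq_eq] at e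
    exact h.inj (Prod.ext e.1 e.2)
  · obtain ⟨τ, hτ⟩ := h.surj x.1 x.2 (by simpa using hx)
    exact ⟨τ, mem_univ _, by simp [hτ]⟩

theorem score_lab (h : IsLab d lab) : score d = ∑ τ, key (lab τ) := (sum_lab h key).symm

theorem mem_comps (h : IsLab d lab) : d ∈ comps Q v D := by
  have h1 : ∀ i, ∑ a, d ⟨i, a⟩ = D i := fun i => by
    have := sum_lab h fun x => if x.1.1 = i then 1 else 0
    simp only [h.vert] at this
    rw [Fintype.sum_sigma, Fintype.sum_sigma,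
      sum_eq_single i (fun j _ hj => by simp [hj]) (by simp),
      sum_eq_single i (fun j _ hj => by simp [hj]) (by simp)] at this
    simpa using this.symm
  refine mem_filter.2 ⟨Fintype.mem_piFinset.2 fun a => mem_range.2 (Nat.lt_succ_of_le ?_), h1⟩
  refine le_trans ?_ (single_le_sum (f := D) (fun _ _ => Nat.zero_le _) (mem_univ a.1))
  rw [← h1]
  exact single_le_sum (f := fun b => d ⟨a.1, b⟩) (fun _ _ => Nat.zero_le _) (mem_univ a.2)

theorem exists_lab (hd : d ∈ comps Q v D) : ∃ lab : Bas Q D → _, IsLab d lab := by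
  have e : ∀ i, Fin (D i) ≃ Σ a : Fin (v i), Fin (d ⟨i, a⟩) := fun i =>
    Fintype.equivOfCardEq (by simp [(mem_filter.1 hd).2 i])
  refine ⟨fun τ => (⟨τ.1, (e τ.1 τ.2).1⟩, (e τ.1 τ.2).2), ?_, fun _ => rfl,
    fun τ => (e τ.1 τ.2).2.2, fun a k hk => ⟨⟨a.1, (e a.1).symm ⟨a.2, ⟨k, hk⟩⟩⟩, ?_⟩⟩
  · rintro ⟨i, x⟩ ⟨j, y⟩ h
    simp only [Prod.mk.injEq, Sigma.mk.injEq] at h
    obtain ⟨⟨rfl, h1⟩, h2⟩ := h
    have : e i x = e i y := by
      generalize e i x = p at h1 h2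
      generalize e i y = q at h1 h2
      obtain ⟨a, k⟩ := p
      obtain ⟨b, l⟩ := q
      dsimp only at h1 h2
      obtain rfl := eq_of_heq h1
      rw [Fin.ext h2]
    rw [(e i).injective this]
  · have := (e a.1).apply_symm_apply ⟨a.2, ⟨k, hk⟩⟩
    dsimp only
    generalize e a.1 ((e a.1).symm ⟨a.2, ⟨k, hk⟩⟩) = p at this
    subst this
    rfl

theorem lab_perm (h : IsLab d lab) (h' : IsLab d lab') :
    ∃ σ : Equiv.Perm (Bas Q D), lab = lab' ∘ σ := by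
  choose f hf using fun τ => h'.surj _ _ (h.lt τ)
  have hi : Function.Injective f := fun τ τ' e => h.inj (by
    have := hf τ
    rw [e, hf τ'] at this
    exact this.symm)
  exact ⟨Equiv.ofBijective f hi.bijective_of_finite, funext fun τ => (hf τ).symm⟩

theorem lab_eq (h : IsLab d lab) (h' : IsLab d' lab') (σ : Equiv.Perm (Bas Q D))
    (e : ∀ τ, lab τ = lab' (σ τ)) : d = d' := by
  funext a
  refine le_antisymm (not_lt.1 fun hl => ?_) (not_lt.1 fun hl => ?_)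
  · obtain ⟨τ, hτ⟩ := h.surj a _ hl
    have := h'.lt (σ τ)
    rw [← e, hτ] at this
    exact lt_irrefl _ this
  · obtain ⟨τ, hτ⟩ := h'.surj a _ hl
    have := h.lt (σ.symm τ)
    rw [e, σ.apply_symm_apply, hτ] at this
    exact lt_irrefl _ this

end lab

/-- The row `c_a t ^ k`. -/
noncomputable def rho (α : Matrix (Nb Q w v D) (Nb Q w v D) ℂ) (x : Bas Q v × ℕ) : Bas Q D → ℂ :=
  fun τ => (α ^ (x.2 + 1)) (.inr (.inl x.1)) (.inl τ)

/-- The matrix of a family of rows. -/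
noncomputable def Mx (α : Matrix (Nb Q w v D) (Nb Q w v D) ℂ) (B : Bas Q D → Bas Q v × ℕ) :
    Matrix (Bas Q D) (Bas Q D) ℂ := Matrix.of fun τ => rho α (B τ)

/-- The block on `T`. -/
def tt (α : Matrix (Nb Q w v D) (Nb Q w v D) ℂ) : Matrix (Bas Q D) (Bas Q D) ℂ :=
  Matrix.of fun τ τ' => α (.inl τ) (.inl τ')

/-- The shape of `α`. -/
def Sh (α : Matrix (Nb Q w v D) (Nb Q w v D) ℂ) : Prop :=
  ∀ p q, α p q ≠ 0 → ∃ τ, q = .inl τ ∧ vx p = τ.1 ∧ blk p < 2

variable {α : Matrix (Nb Q w v D) (Nb Q w v D) ℂ}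

theorem minor_eq (B : Bas Q D → Bas Q v × ℕ) : minorP B α = (Mx α B).det := rfl

theorem sh_of_shape {R : Nb Q w v D → Nb Q w v D → Prop} {p q : Nb Q w v D}
    (h : shape R ka p q) : ∃ τ, q = .inl τ ∧ vx p = τ.1 ∧ blk p < 2 := by
  obtain ⟨⟨h1, h2, -⟩, h3⟩ := h
  rcases q with τ | a | b
  · exact ⟨τ, rfl, h1, h2⟩
  · simp [blk] at h3
  · simp [blk] at h3

theorem Sh.col (h : Sh α) (p : Nb Q w v D) (q : Bas Q v ⊕ Bas Q w) : α p (.inr q) = 0 := by
  by_contra hn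
  obtain ⟨τ, e, -⟩ := h _ _ hn
  cases e

theorem rho_zero (a : Bas Q v) (τ : Bas Q D) : rho α (a, 0) τ = α (.inr (.inl a)) (.inl τ) := by
  simp [rho]

theorem rho_succ (h : Sh α) (a : Bas Q v) (k : ℕ) :
    rho α (a, k + 1) = rho α (a, k) ᵥ* tt α := by
  funext τ
  have h0 : ∀ q, (α ^ (k + 1)) (.inr (.inl a)) (.inr q) = 0 := fun q => by
    simp [pow_succ, Matrix.mul_apply, h.col]
  change (α ^ (k + 1 + 1)) _ _ = _
  rw [pow_succ, Matrix.mul_apply, Fintype.sum_sum_type]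
  simp [h0, Matrix.vecMul, dotProduct, rho, tt]

theorem rho_step (h : Sh α) {a : Bas Q v} {k : ℕ} {τ' : Bas Q D} (hn : rho α (a, k + 1) τ' ≠ 0) :
    ∃ τ, rho α (a, k) τ ≠ 0 ∧ α (.inl τ) (.inl τ') ≠ 0 := by
  rw [rho_succ h] at hn
  obtain ⟨τ, -, hτ⟩ := exists_ne_zero_of_sum_ne_zero hn
  exact ⟨τ, left_ne_zero_of_mul hτ, right_ne_zero_of_mul hτ⟩

theorem rho_vert (h : Sh α) (a : Bas Q v) (k : ℕ) :
    ∀ τ, rho α (a, k) τ ≠ 0 → a.1 = τ.1 := by
  induction k with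
  | zero =>
    intro τ hτ
    rw [rho_zero] at hτ
    obtain ⟨τ', e, h1, -⟩ := h _ _ hτ
    cases e
    exact h1
  | succ k ih =>
    intro τ' hτ
    obtain ⟨τ, h1, h2⟩ := rho_step h hτ
    obtain ⟨τ'', e, h3, -⟩ := h _ _ h2
    cases e
    exact (ih τ h1).trans h3

theorem leibniz {B : Bas Q D → Bas Q v × ℕ} (hB : (Mx α B).det ≠ 0) :
    ∃ σ : Equiv.Perm (Bas Q D), ∀ τ, rho α (B (σ τ)) τ ≠ 0 := by
  rw [Matrix.det_apply] at hB
  obtain ⟨σ, -, hσ⟩ := exists_ne_zero_of_sum_ne_zero hB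
  refine ⟨σ, fun τ h0 => hσ ?_⟩
  rw [prod_eq_zero (f := fun i => Mx α B (σ i) i) (mem_univ τ) h0, smul_zero]

theorem det_comp {B : Bas Q D → Bas Q v × ℕ} (hB : (Mx α B).det ≠ 0) (σ : Equiv.Perm (Bas Q D)) :
    (Mx α (B ∘ σ)).det ≠ 0 := by
  have : Mx α (B ∘ σ) = (Mx α B).submatrix σ id := rfl
  rw [this, Matrix.det_permute]
  exact mul_ne_zero (by simp) hB

theorem vecMul_Mx (B : Bas Q D → Bas Q v × ℕ) (x : Bas Q D → ℂ) :
    x ᵥ* Mx α B = ∑ τ, x τ • rho α (B τ) := by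
  funext τ'
  simp [Matrix.vecMul, dotProduct, Mx]

theorem det_update (B : Bas Q D → Bas Q v × ℕ) (x : Bas Q D → ℂ) (y : Bas Q v × ℕ)
    (hx : x ᵥ* Mx α B = rho α y) (τ : Bas Q D) :
    (Mx α (Function.update B τ y)).det = x τ * (Mx α B).det := by
  have : Mx α (Function.update B τ y) = (Mx α B).updateRow τ (∑ k, x k • Mx α B k) := by
    ext i j
    by_cases hi : i = τ
    · subst hi
      rw [Matrix.updateRow_self]
      rw [vecMul_Mx] at hx
      simp only [Mx, Matrix.of_apply, Function.update_self, ← hx]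
      rfl
    · rw [Matrix.updateRow_ne hi]
      simp only [Mx, Matrix.of_apply, Function.update_of_ne hi]
  rw [this, Matrix.det_updateRow_sum, smul_eq_mul]

theorem sum_update (B : Bas Q D → Bas Q v × ℕ) (y : Bas Q v × ℕ) (τ : Bas Q D)
    (h : key y < key (B τ)) : ∑ τ', key (Function.update B τ y τ') < ∑ τ', key (B τ') := by
  refine sum_lt_sum (fun i _ => ?_) ⟨τ, mem_univ _, by simpa using h⟩
  by_cases hi : i = τ
  · subst hi
    simpa using h.le
  · rw [Function.update_of_ne hi]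

theorem coord_vert (h : Sh α) {B : Bas Q D → Bas Q v × ℕ} (hB : (Mx α B).det ≠ 0)
    {x : Bas Q D → ℂ} {y : Bas Q v × ℕ} (hx : x ᵥ* Mx α B = rho α y) (τ : Bas Q D)
    (hτ : x τ ≠ 0) : (B τ).1.1 = y.1.1 := by
  have h0 : (fun τ => if (B τ).1.1 = y.1.1 then 0 else x τ) ᵥ* Mx α B = 0 := by
    funext τ'
    by_cases e : y.1.1 = τ'.1
    · refine sum_eq_zero fun i _ => ?_
      dsimp only
      split_ifs with hi
      · exact zero_mul _
      · exact mul_eq_zero_of_right _ (by_contra fun hn =>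
          hi ((rho_vert h (B i).1 (B i).2 τ' hn).trans e.symm))
    · have h1 : rho α y τ' = 0 := by_contra fun hn => e (rho_vert h y.1 y.2 τ' hn)
      refine Eq.trans ?_ ((congrFun hx τ').trans h1)
      refine sum_congr rfl fun i _ => ?_
      dsimp only
      split_ifs with hi
      · rw [zero_mul]
        exact (mul_eq_zero_of_right _ (by_contra fun hn =>
          e (hi.symm.trans (rho_vert h (B i).1 (B i).2 τ' hn)))).symm
      · rfl
  have := congrFun (Matrix.eq_zero_of_vecMul_eq_zero hB h0) τ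
  by_contra hn
  simp only [if_neg hn, Pi.zero_apply] at this
  exact hτ this

/-- A basis of minimal total key is closed under lowering the exponent. -/
theorem down (h : Sh α) {B : Bas Q D → Bas Q v × ℕ} (hB : (Mx α B).det ≠ 0)
    (hm : ∀ B' : Bas Q D → Bas Q v × ℕ, (Mx α B').det ≠ 0 → ∑ τ, key (B τ) ≤ ∑ τ, key (B' τ))
    (a : Bas Q v) (k : ℕ) (τ₀ : Bas Q D) (h₀ : B τ₀ = (a, k + 1)) : ∃ τ, B τ = (a, k) := by
  have hx : ∀ y : Bas Q D → ℂ, (y ᵥ* (Mx α B)⁻¹) ᵥ* Mx α B = y := fun y => by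
    rw [Matrix.vecMul_vecMul, Matrix.nonsing_inv_mul _ hB.isUnit, Matrix.vecMul_one]
  have h1 : ∀ y τ, (rho α y ᵥ* (Mx α B)⁻¹) τ ≠ 0 → key (B τ) ≤ key y := fun y τ hτ =>
    not_lt.1 fun hl => absurd (hm _ (by
      rw [det_update B _ y (hx _) τ]
      exact mul_ne_zero hτ hB)) (not_le.2 (sum_update B y τ hl))
  by_contra hn
  push Not at hn
  have h2 : ∀ τ, (rho α (a, k) ᵥ* (Mx α B)⁻¹) τ ≠ 0 → key (B τ) < key (a, k) := fun τ hτ =>
    lt_of_le_of_ne (h1 _ τ hτ) fun e => hn τ (key_inj (coord_vert h hB (hx _) τ hτ) e)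
  have h3 : rho α (a, k + 1) =
      ∑ τ, (rho α (a, k) ᵥ* (Mx α B)⁻¹) τ • rho α ((B τ).1, (B τ).2 + 1) := by
    rw [rho_succ h]
    conv_lhs => rw [← hx (rho α (a, k)), vecMul_Mx, Matrix.sum_vecMul]
    exact sum_congr rfl fun τ _ => by rw [rho_succ h, Matrix.smul_vecMul]
  have h4 : (rho α (a, k + 1) ᵥ* (Mx α B)⁻¹) τ₀ = 0 := by
    rw [h3, Matrix.sum_vecMul, Finset.sum_apply]
    refine sum_eq_zero fun τ _ => ?_
    rw [Matrix.smul_vecMul, Pi.smul_apply, smul_eq_mul]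
    by_contra hn'
    have e1 := h2 τ (left_ne_zero_of_mul hn')
    have e2 := h1 _ τ₀ (right_ne_zero_of_mul hn')
    rw [h₀, key_succ, key_succ] at e2
    exact absurd e1 (not_lt.2 (Nat.le_of_add_le_add_right e2))
  have h5 : rho α (a, k + 1) = Pi.single τ₀ 1 ᵥ* Mx α B := by
    rw [Matrix.single_one_vecMul, ← h₀]
    rfl
  rw [h5, Matrix.vecMul_vecMul, Matrix.mul_nonsing_inv _ hB.isUnit, Matrix.vecMul_one] at h4
  simp at h4

/-- Every basis of rows is dominated by a labelled one. -/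
theorem exists_min (h : Sh α) {lab : (Bas Q v → ℕ) → Bas Q D → Bas Q v × ℕ}
    (hl : ∀ d ∈ comps Q v D, IsLab d (lab d)) {B₀ : Bas Q D → Bas Q v × ℕ}
    (hB₀ : (Mx α B₀).det ≠ 0) :
    ∃ d ∈ comps Q v D, score d ≤ ∑ τ, key (B₀ τ) ∧ minorP (lab d) α ≠ 0 := by
  classical
  obtain ⟨B, hB, hm⟩ := (measure fun B : Bas Q D → Bas Q v × ℕ => ∑ τ, key (B τ)).wf.has_min
    {B | (Mx α B).det ≠ 0} ⟨B₀, hB₀⟩
  replace hm : ∀ B' : Bas Q D → Bas Q v × ℕ, (Mx α B').det ≠ 0 →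
      ∑ τ, key (B τ) ≤ ∑ τ, key (B' τ) := fun B' hB' => not_lt.1 (hm B' hB')
  have hi : Function.Injective B := fun τ τ' e => by_contra fun hn =>
    hB (Matrix.det_zero_of_row_eq hn (by funext j; simp [Mx, e]))
  have hd : ∀ a l k τ, B τ = (a, k + l) → ∃ τ', B τ' = (a, k) := fun a l => by
    induction l with
    | zero => exact fun k τ e => ⟨τ, e⟩
    | succ l ih =>
      intro k τ e
      obtain ⟨τ', e'⟩ := down h hB hm a (k + l) τ e
      exact ih k τ' e'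
  have hex : ∀ a, ∃ k, ∀ τ, B τ ≠ (a, k) := fun a =>
    ⟨univ.sup (fun τ => (B τ).2) + 1, fun τ e => by
      have := le_sup (f := fun τ => (B τ).2) (mem_univ τ)
      simp only [e] at this
      omega⟩
  obtain ⟨σ, hσ⟩ := leibniz hB
  have hL : IsLab (fun a => Nat.find (hex a)) (B ∘ σ) := by
    refine ⟨hi.comp σ.injective, fun τ => rho_vert h _ _ τ (hσ τ), fun τ => ?_, fun a k hk => ?_⟩
    · refine not_le.1 fun hle => ?_
      obtain ⟨l, e⟩ := Nat.exists_eq_add_of_le hle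
      obtain ⟨τ', e'⟩ := hd _ l _ (σ τ) (Prod.ext rfl e)
      exact Nat.find_spec (hex _) τ' e'
    · have := Nat.find_min (hex a) hk
      push Not at this
      obtain ⟨τ, e⟩ := this
      exact ⟨σ.symm τ, by simpa using e⟩
  have hc := mem_comps hL
  refine ⟨_, hc, ?_, ?_⟩
  · rw [score_lab hL]
    exact (Equiv.sum_comp σ fun τ => key (B τ)).trans_le (hm B₀ hB₀)
  · obtain ⟨π, e⟩ := lab_perm (hl _ hc) hL
    rw [minor_eq, e]
    exact det_comp (det_comp hB σ) π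

end Pool.Agent.MP_8be872_ag.H71.ObsL
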